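import Pool.Agent.Lib.MP_7eb8d7_co.Tail95

namespace StsKar

open Finset Polynomial

variable {F : Type*} [Field F] [DecidableEq F]

theorem Hs_sum (A : Finset F) (h : 1 ≤ #A) : Hs A #A = ∑ a ∈ A, a :=
  Hs_card A #A h rfl

theorem moments_det (A B : Finset F) (k : ℕ) (hA : #A = k) (hB : #B = k) (hk : 2 ≤ k) (d : F)
    (h : ∀ r, r ≤ k → Hs A (k - 1 + r) = d ^ r * Hs B (k - 1 + r)) :
    d ≠ 0 ∧ A = B.image (fun b => d * b) := by
  have hd : d ≠ 0 := by
    rintro rfl
    have h0 : ∀ x ∈ A, x = 0 := by
      apply zero_of_Hs A k <;> first | omega | skip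
      intro r h1 hr
      rw [h r hr, zero_pow (by omega), zero_mul]
    have : A ⊆ {0} := fun x hx => mem_singleton.2 (h0 x hx)
    have := card_le_card this
    rw [card_singleton] at this
    omega
  refine ⟨hd, ?_⟩
  have hinj : Function.Injective (fun b : F => d * b) := fun x y h => mul_left_cancel₀ hd h
  have hc : #(B.image (fun b => d * b)) = k := by
    rw [card_image_of_injective _ hinj, hB]
  apply eq_of_Hs A (B.image (fun b => d * b)) k <;> first | omega | skip
  intro r hr
  rw [h r hr]
  exact (Hs_mul' B k hB (by omega) d hd r).symm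

end StsKar
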