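import Pool.Agent.Lib.MP_7eb8d7_co.Kar3
import Pool.Agent.Lib.MP_7eb8d7_co.ApB

/-! The inverse theorem for restricted sumsets: comparison with the centred progression. -/

namespace StsKar

open Finset Polynomial

section

variable {F : Type*} [Field F]

/-- scaled moments -/
def scH (k : ℕ) (d : F) (H : ℕ → F) (n : ℕ) : F :=
  if n < k - 1 then 0 else d ^ (n - (k - 1)) * H n

/-- scaled coefficients -/
def scP (d : F) (ph : ℕ → F) (l : ℕ) : F := d ^ l * ph l

theorem S_scale66 (k : ℕ) (hk : 5 ≤ k) (d : F) (H ph : ℕ → F)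
    (h0 : ∀ n, n < k - 1 → H n = 0) (i j : ℕ) :
    S (2 * k - 3) (scH k d H) (scP d ph) i j = d ^ (i + j) * S (2 * k - 3) H ph i j := by
  unfold S
  rw [mul_sum]
  apply sum_congr rfl
  intro l hl
  rw [mul_sum]
  apply sum_congr rfl
  intro s hs
  rw [mem_range] at hl hs
  by_cases ha : i + s < k - 1
  · unfold scH
    rw [if_pos ha, h0 _ ha]
    ring
  by_cases hb : j + (2 * k - 3 - l + 1 - s) < k - 1
  · unfold scH
    rw [if_pos hb, h0 _ hb]
    ring
  unfold scH scP
  rw [if_neg ha, if_neg hb]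
  have e : d ^ (i + j) = d ^ l * d ^ (i + s - (k - 1)) *
      d ^ (j + (2 * k - 3 - l + 1 - s) - (k - 1)) := by
    rw [← pow_add, ← pow_add]
    congr 1
    omega
  rw [e]
  ring

theorem natinj (p : ℕ) [CharP F p] (i j : ℕ) (hi : i < p) (hj : j < p)
    (h : (i : F) = (j : F)) : i = j := by
  rcases lt_trichotomy i j with hlt | heq | hgt
  · exfalso
    have : ((j - i : ℕ) : F) = 0 := by rw [Nat.cast_sub hlt.le, h, sub_self]
    exact natne p (j - i) (by omega) (by omega) this
  · exact heq
  · exfalso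
    have : ((i - j : ℕ) : F) = 0 := by rw [Nat.cast_sub hgt.le, h, sub_self]
    exact natne p (i - j) (by omega) (by omega) this

theorem gauss (n : ℕ) (c : F) :
    ∑ i ∈ range n, (2 * (i : F) - c) = n * ((n : F) - 1) - n * c := by
  induction n with
  | zero => simp
  | succ n ih =>
    rw [sum_range_succ, ih]
    push_cast
    ring

/-- the trivial solution -/
theorem S_triv (k : ℕ) (hk : 5 ≤ k) (i j : ℕ) :
    S (2 * k - 3) (fun n => if n = k - 1 then (1 : F) else 0)
      (fun l => if l = 0 then (1 : F) else 0) i j = 0 := by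
  unfold S
  apply sum_eq_zero
  intro l hl
  apply sum_eq_zero
  intro s hs
  rw [mem_range] at hl hs
  by_cases hl0 : l = 0
  · subst hl0
    by_cases h1 : i + s = k - 1
    · by_cases h2 : j + (2 * k - 3 - 0 + 1 - s) = k - 1
      · have hs' : s = k - 1 := by omega
        subst hs'
        have hc : cf (2 * k - 3 - 0) (k - 1) = 0 := by
          unfold cf
          rw [if_neg (by omega)]
          have : (2 * k - 3 - 0).choose (k - 1 - 1) = (2 * k - 3 - 0).choose (k - 1) := by
            rw [← Nat.choose_symm (by omega : k - 1 ≤ 2 * k - 3 - 0)]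
            congr 1
            omega
          rw [this, sub_self]
        rw [hc]
        simp
      · simp only [h2, if_false, mul_zero]
    · simp only [h1, if_false, mul_zero, zero_mul]
  · simp only [hl0, if_false, zero_mul]

end

variable {F : Type*} [Field F] [DecidableEq F]

/-- the centred progression -/
def A0 (F : Type*) [Field F] [DecidableEq F] (k : ℕ) : Finset F :=
  (range k).image (fun i : ℕ => 2 * (i : F) - ((k : F) - 1))

theorem two_ne (p : ℕ) [CharP F p] (hp : 2 < p) : (2 : F) ≠ 0 := by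
  have := natne (F := F) p 2 (by omega) hp
  exact_mod_cast this

theorem A0_inj (p : ℕ) [CharP F p] (k : ℕ) (hk : 5 ≤ k) (hp : 2 * k < p) :
    Set.InjOn (fun i : ℕ => 2 * (i : F) - ((k : F) - 1)) (range k : Finset ℕ) := by
  intro i hi j hj h
  rw [mem_coe, mem_range] at hi hj
  have h2 : (2 : F) * ((i : F) - j) = 0 := by
    simp only at h
    linear_combination h
  rcases mul_eq_zero.1 h2 with h3 | h3
  · exact absurd h3 (two_ne p (by omega))
  · exact natinj p i j (by omega) (by omega) (by linear_combination h3)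

theorem A0_card (p : ℕ) [CharP F p] (k : ℕ) (hk : 5 ≤ k) (hp : 2 * k < p) :
    #(A0 F k) = k := by
  unfold A0
  rw [card_image_of_injOn (A0_inj p k hk hp), card_range]

theorem A0_sum (p : ℕ) [CharP F p] (k : ℕ) (hk : 5 ≤ k) (hp : 2 * k < p) :
    ∑ a ∈ A0 F k, a = 0 := by
  unfold A0
  rw [sum_image (A0_inj p k hk hp), gauss]
  ring

/-- a monic polynomial of degree exactly `n` vanishing on `D`. -/
theorem exists_poly (D : Finset F) (n : ℕ) (h : #D ≤ n) :
    ∃ P : F[X], P.natDegree = n ∧ P.coeff n = 1 ∧ ∀ s ∈ D, P.eval s = 0 := by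
  refine ⟨(∏ s ∈ D, (X - C s)) * X ^ (n - #D), ?_, ?_, ?_⟩
  · have hm : (∏ s ∈ D, (X - C s)).Monic := monic_prod_X_sub_C _ _
    rw [hm.natDegree_mul (monic_X_pow _), natDegree_X_pow, natDegree_finsetProd_X_sub_C_eq_card]
    omega
  · have hm : (∏ s ∈ D, (X - C s)).Monic := monic_prod_X_sub_C _ _
    have hm2 : ((∏ s ∈ D, (X - C s)) * X ^ (n - #D)).Monic := hm.mul (monic_X_pow _)
    have hd : ((∏ s ∈ D, (X - C s)) * X ^ (n - #D)).natDegree = n := by
      rw [hm.natDegree_mul (monic_X_pow _), natDegree_X_pow, natDegree_finsetProd_X_sub_C_eq_card]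
      omega
    have := hm2.coeff_natDegree
    rwa [hd] at this
  · intro s hs
    rw [eval_mul, eval_prod]
    have : ∏ j ∈ D, eval s (X - C j) = 0 := by
      apply prod_eq_zero hs
      simp
    rw [this, zero_mul]

theorem A0_rs (k : ℕ) (hk : 5 ≤ k) : #(rs (A0 F k)) ≤ 2 * k - 3 := by
  have hsub : rs (A0 F k) ⊆ (range (2 * k - 3)).image
      (fun t : ℕ => 2 * ((t : F) + 1) - 2 * ((k : F) - 1)) := by
    intro z hz
    rw [mem_rs] at hz
    obtain ⟨x, hx, y, hy, hxy, hz⟩ := hz
    unfold A0 at hx hy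
    rw [mem_image] at hx hy
    obtain ⟨i, hi, hx⟩ := hx
    obtain ⟨j, hj, hy⟩ := hy
    rw [mem_range] at hi hj
    have hij : i ≠ j := by
      rintro rfl
      exact hxy (hx.symm.trans hy)
    rw [mem_image]
    refine ⟨i + j - 1, by rw [mem_range]; omega, ?_⟩
    have : ((i + j - 1 : ℕ) : F) = (i : F) + j - 1 := by
      rw [Nat.cast_sub (by omega)]
      push_cast
      ring
    rw [this, ← hz, ← hx, ← hy]
    ring
  exact (card_le_card hsub).trans (card_image_le.trans (by rw [card_range]))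

/-- every set with few restricted sums satisfies the equations. -/
theorem solution (A : Finset F) (k : ℕ) (hk : 5 ≤ k) (hr : #(rs A) ≤ 2 * k - 3) :
    ∃ ph : ℕ → F, ph 0 = 1 ∧ ∀ i j, S (2 * k - 3) (Hs A) ph i j = 0 := by
  obtain ⟨P, hd, hc, hv⟩ := exists_poly (rs A) (2 * k - 3) hr
  refine ⟨fun l => P.coeff (2 * k - 3 - l), hc, ?_⟩
  intro i j
  apply S_zero A P (2 * k - 3) hd.le
  intro a ha b hb hab
  exact hv _ (mem_rs.2 ⟨a, ha, b, hb, hab, rfl⟩)

theorem A0_ne (p : ℕ) [Fact p.Prime] [CharP F p] (k : ℕ) (hk : 5 ≤ k) (hp : 2 * k < p) :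
    Hs (A0 F k) (k + 1) ≠ 0 := by
  intro h
  obtain ⟨ph, hph, hS⟩ := solution (A0 F k) k hk (A0_rs k hk)
  have hcard := A0_card (F := F) p k hk hp
  have hk0 : Hs (A0 F k) k = 0 := by
    have := Hs_sum (A0 F k) (by omega)
    rw [hcard] at this
    rw [this, A0_sum p k hk hp]
  have hu := uniq p k hk hp (Hs (A0 F k)) (fun n => if n = k - 1 then (1 : F) else 0) ph
    (fun l => if l = 0 then (1 : F) else 0)
    (fun n hn => Hs_lt (by omega)) (Hs_eq (by omega))
    (fun n hn => by simp only [if_neg (show ¬ n = k - 1 by omega)]) (by simp) hph (by simp) hS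
    (S_triv k hk) (by rw [hk0, if_neg (by omega)]) (by rw [h, if_neg (by omega)])
  have := moments_det (A0 F k) (A0 F k) k hcard hcard (by omega) 0 (by
    intro r hr
    rcases r with _ | r
    · simp
    · rw [hu (r + 1) hr, if_neg (by omega)]
      ring)
  exact this.1 rfl

/-- the statement for centred sets -/
theorem kar_centred (p : ℕ) [Fact p.Prime] [CharP F p] [IsAlgClosed F] (A : Finset F) (k : ℕ)
    (hA : #A = k) (hk : 5 ≤ k) (hp : 2 * k < p) (hr : #(rs A) ≤ 2 * k - 3)
    (hs : ∑ a ∈ A, a = 0) : ∃ d : F, d ≠ 0 ∧ A = (A0 F k).image (fun b => d * b) := by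
  obtain ⟨ph, hph, hS⟩ := solution A k hk hr
  obtain ⟨ph0, hph0, hS0⟩ := solution (A0 F k) k hk (A0_rs k hk)
  have hcard := A0_card (F := F) p k hk hp
  have hk0 : Hs (A0 F k) k = 0 := by
    have := Hs_sum (A0 F k) (by omega)
    rw [hcard] at this
    rw [this, A0_sum p k hk hp]
  have hkA : Hs A k = 0 := by
    have := Hs_sum A (by omega)
    rw [hA] at this
    rw [this, hs]
  have hne := A0_ne (F := F) p k hk hp
  obtain ⟨d, hd⟩ := IsAlgClosed.exists_pow_nat_eq (Hs A (k + 1) / Hs (A0 F k) (k + 1))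
    (show 0 < 2 by norm_num)
  have hd2 : Hs A (k + 1) = d ^ 2 * Hs (A0 F k) (k + 1) := by
    rw [hd, div_mul_cancel₀ _ hne]
  have h00 : ∀ n, n < k - 1 → Hs (A0 F k) n = 0 := fun n hn => Hs_lt (by omega)
  have hu := uniq p k hk hp (Hs A) (scH k d (Hs (A0 F k))) ph (scP d ph0)
    (fun n hn => Hs_lt (by omega)) (Hs_eq (by omega))
    (fun n hn => by unfold scH; rw [if_pos hn])
    (by
      unfold scH
      rw [if_neg (by omega), Nat.sub_self, pow_zero, one_mul]
      exact Hs_eq (by omega))
    hph (by unfold scP; rw [pow_zero, one_mul, hph0]) hS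
    (fun i j => by rw [S_scale66 k hk d _ _ h00, hS0, mul_zero])
    (by
      unfold scH
      rw [if_neg (by omega), hk0, hkA, mul_zero])
    (by
      unfold scH
      have e : k + 1 - (k - 1) = 2 := by omega
      rw [if_neg (by omega), e, hd2])
  have := moments_det A (A0 F k) k hA hcard (by omega) d (by
    intro r hr
    rw [hu r hr]
    unfold scH
    have e : k - 1 + r - (k - 1) = r := by omega
    rw [if_neg (by omega), e])
  exact ⟨d, this⟩

theorem karK (p : ℕ) [Fact p.Prime] [CharP F p] [IsAlgClosed F] (A : Finset F) (k : ℕ)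
    (hA : #A = k) (hk : 5 ≤ k) (hp : 2 * k < p) (hr : #(rs A) ≤ 2 * k - 3) :
    ∃ a d : F, d ≠ 0 ∧ A = (range k).image (fun i : ℕ => a + (i : F) * d) := by
  have hkF : (k : F) ≠ 0 := natne p k (by omega) (by omega)
  set c : F := (∑ a ∈ A, a) / k with hc
  have hinj : Function.Injective (fun a : F => a - c) := fun x y h => by
    simpa using h
  have hA' : #(A.image (fun a => a - c)) = k := by
    rw [card_image_of_injective _ hinj, hA]
  have hr' : #(rs (A.image (fun a => a - c))) ≤ 2 * k - 3 := by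
    have hsub : rs (A.image (fun a => a - c)) ⊆ (rs A).image (fun z => z - 2 * c) := by
      intro z hz
      rw [mem_rs] at hz
      obtain ⟨x, hx, y, hy, hxy, hz⟩ := hz
      rw [mem_image] at hx hy
      obtain ⟨x', hx', rfl⟩ := hx
      obtain ⟨y', hy', rfl⟩ := hy
      rw [mem_image]
      refine ⟨x' + y', mem_rs.2 ⟨x', hx', y', hy', ?_, rfl⟩, ?_⟩
      · rintro rfl
        exact hxy rfl
      · rw [← hz]
        ring
    exact (card_le_card hsub).trans (card_image_le.trans hr)
  have hs' : ∑ a ∈ A.image (fun a => a - c), a = 0 := by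
    rw [sum_image (fun x _ y _ h => hinj h), sum_sub_distrib, sum_const, hA, nsmul_eq_mul, hc,
      mul_div_cancel₀ _ hkF, sub_self]
  obtain ⟨d, hd, hAd⟩ := kar_centred p (A.image (fun a => a - c)) k hA' hk hp hr' hs'
  refine ⟨c - d * ((k : F) - 1), 2 * d, mul_ne_zero (two_ne p (by omega)) hd, ?_⟩
  have h1 : A = (A.image (fun a => a - c)).image (fun a => a + c) := by
    rw [image_image]
    simp [Function.comp_def]
  rw [h1, hAd]
  unfold A0
  rw [image_image, image_image]
  apply image_congr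
  intro i _
  simp only [Function.comp_apply]
  ring

end StsKar

namespace StsKar

open Finset

theorem kar (p : ℕ) [Fact p.Prime] (W : Finset (ZMod p)) (h5 : 5 ≤ #W) (hp : 2 * #W < p)
    (hr : #(rs W) ≤ 2 * #W - 3) :
    ∃ a d : ZMod p, d ≠ 0 ∧ W = (range #W).image (fun i : ℕ => a + (i : ZMod p) * d) := by
  classical
  let K := AlgebraicClosure (ZMod p)
  let φ : ZMod p →+* K := algebraMap (ZMod p) K
  have hφ : Function.Injective φ := φ.injective
  have : CharP K p := charP_of_injective_algebraMap hφ p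
  have hcard : #(W.image φ) = #W := card_image_of_injective _ hφ
  have hr' : #(rs (W.image φ)) ≤ 2 * #W - 3 := by
    have hsub : rs (W.image φ) ⊆ (rs W).image φ := by
      intro z hz
      rw [mem_rs] at hz
      obtain ⟨x, hx, y, hy, hxy, hz⟩ := hz
      rw [mem_image] at hx hy
      obtain ⟨x', hx', rfl⟩ := hx
      obtain ⟨y', hy', rfl⟩ := hy
      rw [mem_image]
      refine ⟨x' + y', mem_rs.2 ⟨x', hx', y', hy', ?_, rfl⟩, ?_⟩
      · rintro rfl
        exact hxy rfl
      · rw [← hz, map_add]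
    exact (card_le_card hsub).trans (card_image_le.trans hr)
  obtain ⟨a, d, hd, hW⟩ := karK p (W.image φ) #W hcard h5 hp hr'
  have m0 : a + ((0 : ℕ) : K) * d ∈ W.image φ := by
    rw [hW]
    exact mem_image_of_mem (fun i : ℕ => a + (i : K) * d) (mem_range.2 (by omega))
  have m1 : a + ((1 : ℕ) : K) * d ∈ W.image φ := by
    rw [hW]
    exact mem_image_of_mem (fun i : ℕ => a + (i : K) * d) (mem_range.2 (by omega))
  rw [mem_image] at m0 m1
  obtain ⟨x0, _, e0⟩ := m0
  obtain ⟨x1, _, e1⟩ := m1
  rw [Nat.cast_zero, zero_mul, add_zero] at e0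
  rw [Nat.cast_one, one_mul] at e1
  have ed : d = φ (x1 - x0) := by
    rw [map_sub, e1, e0]
    ring
  refine ⟨x0, x1 - x0, ?_, ?_⟩
  · intro h
    rw [h, map_zero] at ed
    exact hd ed
  · apply image_injective hφ
    rw [hW, image_image]
    apply image_congr
    intro i _
    simp only [Function.comp_apply, map_add, map_mul, map_natCast]
    rw [e0, ← ed]

end StsKar
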