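import Pool.Agent.Lib.MP_7eb8d7_co.Kar2

namespace StsKar

open Finset Polynomial

theorem alg_mid {F : Type*} [Field F] (K R cr cr1 cr2 c1 c2 e0 e1 e2 dh dp : F)
    (q0 : (2 * K - 2 - R) * (R * cr) * dh + (K - 1) * R * e0 * dp = 0)
    (q1 : (2 * K - 2 - R) * ((R - 1) * cr1 - c1) * dh + (K - 1) * (R - 2) * e1 * dp = 0)
    (q2 : (2 * K - 2 - R) * ((R - 2) * cr2 - 2 * c2) * dh + (K - 1) * (R - 4) * e2 * dp = 0)
    (r1 : cr * (K - 1 + R) = cr1 * (K - R))
    (r2 : cr1 * (K + R - 2) = cr2 * (K - R + 1))
    (r3 : c2 * (K + 1) = c1 * (K - 2))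
    (r4 : e0 * (K - 1) = e1 * (K - R))
    (r5 : e1 * (K - 2) = e2 * (K - R + 1))
    (hR : R ≠ 0) (hA : 2 * K - 2 - R ≠ 0) (hcr : cr ≠ 0) (h3 : (3 : F) ≠ 0) (hR2 : R - 2 ≠ 0)
    (hR1 : R + 1 ≠ 0) (hK1 : K - 1 ≠ 0) (he0 : e0 ≠ 0) : dh = 0 ∧ dp = 0 := by
  have h0 : (2 * K - 2 - R) * cr * dh + (K - 1) * e0 * dp = 0 := by
    apply mul_left_cancel₀ hR
    linear_combination q0
  have g1 : (2 * K - 2 - R) * dh * (cr * (K + R ^ 2 - R - 1) - (K - R) * c1) = 0 := by
    linear_combination (K - R) * q1 + (2 * K - 2 - R) * dh * (R - 1) * r1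
      - (R - 2) * (K - 1) * h0 + (K - 1) * (R - 2) * dp * r4
  have g2 : (2 * K - 2 - R) * dh * (cr * ((R - 2) * (K + R - 2) * (K - 1 + R)
      - (R - 4) * (K - 2) * (K - 1)) - 2 * (K - R) * (K - R + 1) * c2) = 0 := by
    linear_combination (K - R) * (K - R + 1) * q2 + (2 * K - 2 - R) * dh * (R - 2) * (K - R) * r2
      + (2 * K - 2 - R) * dh * (R - 2) * (K + R - 2) * r1
      + (K - 1) * (R - 4) * (K - R) * dp * r5 + (K - 1) * (R - 4) * (K - 2) * dp * r4
      - (R - 4) * (K - 1) * (K - 2) * h0
  have g3 : ((2 * K - 2 - R) * cr * (3 * R * (R - 2) * (R + 1) * (K - 1))) * dh = 0 := by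
    linear_combination (K + 1) * g2 + 2 * (K - R) * (K - R + 1) * (2 * K - 2 - R) * dh * r3
      - 2 * (K - 2) * (K - R + 1) * g1
  have hdh : dh = 0 := by
    rcases mul_eq_zero.1 g3 with h | h
    · exfalso
      exact (mul_ne_zero (mul_ne_zero hA hcr)
        (mul_ne_zero (mul_ne_zero (mul_ne_zero (mul_ne_zero h3 hR) hR2) hR1) hK1)) h
    · exact h
  refine ⟨hdh, ?_⟩
  rw [hdh] at h0
  have : ((K - 1) * e0) * dp = 0 := by linear_combination h0
  rcases mul_eq_zero.1 this with h | h
  · exact absurd h (mul_ne_zero hK1 he0)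
  · exact h

theorem alg_end {F : Type*} [Field F] (K c1 c2 c3 e3 dh dp : F)
    (q1 : (2 * K - 2 - K) * ((K - 1) * 1 - c1) * dh + (K - 1) * (K - 2) * 1 * dp = 0)
    (q2 : (2 * K - 2 - K) * ((K - 2) * (2 * K - 2) - 2 * c2) * dh
      + (K - 1) * (K - 4) * (K - 2) * dp = 0)
    (q3 : (2 * K - 2 - K) * ((K - 3) * ((K - 1) * (2 * K - 3)) - 3 * c3) * dh
      + (K - 1) * (K - 6) * e3 * dp = 0)
    (he3 : 2 * e3 = (K - 2) * (K - 3))
    (r2 : c2 * (K + 1) = c1 * (K - 2)) (r3 : c3 * (K + 2) = c2 * (K - 3))
    (n2 : K - 2 ≠ 0) (n0 : K ≠ 0) (n3 : K - 3 ≠ 0) (n1 : K - 1 ≠ 0) (m1 : K + 1 ≠ 0)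
    (n4 : K - 4 ≠ 0) (two : (2 : F) ≠ 0) : dh = 0 := by
  have h1 : ((K - 1) - c1) * dh + (K - 1) * dp = 0 := by
    apply mul_left_cancel₀ n2
    linear_combination q1
  have h2 : ((K - 2) * (2 * K - 2) - 2 * c2) * dh + (K - 1) * (K - 4) * dp = 0 := by
    apply mul_left_cancel₀ n2
    linear_combination q2
  have h3 : 2 * ((K - 3) * (K - 1) * (2 * K - 3) - 3 * c3) * dh
      + (K - 1) * (K - 6) * (K - 3) * dp = 0 := by
    apply mul_left_cancel₀ n2
    linear_combination 2 * q3 - (K - 1) * (K - 6) * dp * he3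
  have p1 : dh * K * ((K ^ 2 - 1) + c1 * (K - 5)) = 0 := by
    linear_combination (K + 1) * h2 - (K + 1) * (K - 4) * h1 + 2 * dh * r2
  have p2 : dh * (K - 3) * K * (3 * (K + 1) * (K + 2) * (K - 1)
      + c1 * (K ^ 2 - 3 * K - 22)) = 0 := by
    linear_combination (K + 1) * (K + 2) * h3 - (K + 1) * (K + 2) * (K - 6) * (K - 3) * h1
      + 6 * dh * (K + 1) * r3 + 6 * dh * (K - 3) * r2
  by_contra hdh
  have t1 : (K ^ 2 - 1) + c1 * (K - 5) = 0 := by
    rcases mul_eq_zero.1 p1 with h | h
    · exact absurd h (mul_ne_zero hdh n0)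
    · exact h
  have t2 : 3 * (K + 1) * (K + 2) * (K - 1) + c1 * (K ^ 2 - 3 * K - 22) = 0 := by
    rcases mul_eq_zero.1 p2 with h | h
    · exact absurd h (mul_ne_zero (mul_ne_zero hdh n3) n0)
    · exact h
  have t3 : 2 * (K - 1) * (K + 1) * (K - 4) * (K + 1) = 0 := by
    linear_combination (K - 5) * t2 - (K ^ 2 - 3 * K - 22) * t1
  exact (mul_ne_zero (mul_ne_zero (mul_ne_zero (mul_ne_zero two n1) m1) n4) m1) t3

theorem uniq {F : Type*} [Field F] (p : ℕ) [Fact p.Prime] [CharP F p]
    (k : ℕ) (hk : 5 ≤ k) (hp : 2 * k < p)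
    (H H' ph ph' : ℕ → F) (h0 : ∀ n, n < k - 1 → H n = 0) (h1 : H (k - 1) = 1)
    (h0' : ∀ n, n < k - 1 → H' n = 0) (h1' : H' (k - 1) = 1)
    (hph : ph 0 = 1) (hph' : ph' 0 = 1)
    (hS : ∀ i j, S (2 * k - 3) H ph i j = 0) (hS' : ∀ i j, S (2 * k - 3) H' ph' i j = 0)
    (e1 : H k = H' k) (e2 : H (k + 1) = H' (k + 1)) :
    ∀ r, r ≤ k → H (k - 1 + r) = H' (k - 1 + r) := by
  have cc : ∀ c : ℕ, c ≤ k → ((k - c : ℕ) : F) = (k : F) - c := fun c hc => Nat.cast_sub hc
  have K0 : (k : F) ≠ 0 := natne p k (by omega) (by omega)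
  have K1 : (k : F) - 1 ≠ 0 := by
    have := natne (F := F) p (k - 1) (by omega) (by omega)
    rw [cc 1 (by omega)] at this
    simpa using this
  have K2 : (k : F) - 2 ≠ 0 := by
    have := natne (F := F) p (k - 2) (by omega) (by omega)
    rw [cc 2 (by omega)] at this
    simpa using this
  have K3 : (k : F) - 3 ≠ 0 := by
    have := natne (F := F) p (k - 3) (by omega) (by omega)
    rw [cc 3 (by omega)] at this
    simpa using this
  have K4 : (k : F) - 4 ≠ 0 := by
    have := natne (F := F) p (k - 4) (by omega) (by omega)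
    rw [cc 4 (by omega)] at this
    simpa using this
  have Kp1 : (k : F) + 1 ≠ 0 := by
    have := natne (F := F) p (k + 1) (by omega) (by omega)
    simpa using this
  have two : (2 : F) ≠ 0 := by
    have := natne (F := F) p 2 (by omega) (by omega)
    simpa using this
  have three : (3 : F) ≠ 0 := by
    have := natne (F := F) p 3 (by omega) (by omega)
    simpa using this
  have main : ∀ r, r ≤ k → (H (k - 1 + r) = H' (k - 1 + r) ∧ (r < k → ph r = ph' r)) := by
    intro r
    induction r using Nat.strong_induction_on with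
    | _ r ih =>
    intro hrk
    by_cases hr0 : r = 0
    · subst hr0
      refine ⟨by rw [Nat.add_zero, h1, h1'], fun _ => by rw [hph, hph']⟩
    have hlow : ∀ t, t < r → H (k - 1 + t) = H' (k - 1 + t) ∧ ph t = ph' t := fun t ht =>
      ⟨(ih t ht (by omega)).1, (ih t ht (by omega)).2 (by omega)⟩
    have E := fun (i : ℕ) (hir : i ≤ r) (hi : i ≤ k - 1) (hj : r - i ≤ k - 1) =>
      eqn p k r i hk hp (by omega) hrk hir hi hj H H' ph ph' h0 h1 h0' h1' hS hS' hlow hph
    -- the two small cases need `H` from the hypotheses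
    by_cases hrk2 : r = k
    · refine ⟨?_, fun h => absurd h (by omega)⟩
      subst hrk2
      have q1 := E 1 (by omega) (by omega) (by omega)
      have q2 := E 2 (by omega) (by omega) (by omega)
      have q3 := E 3 (by omega) (by omega) (by omega)
      have b1 : (2 * r - 2).choose (r - 1 + (r - 1)) = 1 := by
        have : r - 1 + (r - 1) = 2 * r - 2 := by omega
        rw [this, Nat.choose_self]
      have b2 : (2 * r - 2).choose (r - 1 + (r - 2)) = 2 * r - 2 := by
        have : r - 1 + (r - 2) = (2 * r - 2) - 1 := by omega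
        rw [this, Nat.choose_symm (by omega), Nat.choose_one_right]
      have b3 : 2 * (2 * r - 2).choose (r - 1 + (r - 3)) = (2 * r - 2) * (2 * r - 3) := by
        have : r - 1 + (r - 3) = (2 * r - 2) - 2 := by omega
        rw [this, Nat.choose_symm (by omega), Nat.choose_two_right]
        have h := Nat.even_mul_pred_self (2 * r - 2)
        have e : 2 * r - 2 - 1 = 2 * r - 3 := by omega
        rw [e] at h ⊢
        exact Nat.mul_div_cancel' h.two_dvd
      have d1 : (2 * r - 2 - r).choose (r - 1 - 1) = 1 := by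
        have : r - 1 - 1 = 2 * r - 2 - r := by omega
        rw [this, Nat.choose_self]
      have d2 : (2 * r - 2 - r).choose (r - 1 - 2) = r - 2 := by
        have : r - 1 - 2 = (2 * r - 2 - r) - 1 := by omega
        rw [this, Nat.choose_symm (by omega), Nat.choose_one_right]
        omega
      have d3 : 2 * (2 * r - 2 - r).choose (r - 1 - 3) = (r - 2) * (r - 3) := by
        have : r - 1 - 3 = (2 * r - 2 - r) - 2 := by omega
        rw [this, Nat.choose_symm (by omega), Nat.choose_two_right]
        have e : 2 * r - 2 - r = r - 2 := by omega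
        rw [e]
        have h := Nat.even_mul_pred_self (r - 2)
        have e' : r - 2 - 1 = r - 3 := by omega
        rw [e'] at h ⊢
        exact Nat.mul_div_cancel' h.two_dvd
      have R1 := ratio (F := F) (2 * r - 2) r (by omega)
      have R2 := ratio (F := F) (2 * r - 2) (r + 1) (by omega)
      have f1 : ((2 * r - 2 : ℕ) : F) = 2 * r - 2 := by
        rw [Nat.cast_sub (by omega)]; push_cast; ring
      have f3 : ((2 * r - 3 : ℕ) : F) = 2 * r - 3 := by
        rw [Nat.cast_sub (by omega)]; push_cast; ring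
      have g3 : (((2 * r - 2).choose (r - 1 + (r - 3)) : ℕ) : F) = ((r : F) - 1) * (2 * r - 3) := by
        apply mul_left_cancel₀ two
        have := congrArg (fun z : ℕ => (z : F)) b3
        simp only [Nat.cast_mul, Nat.cast_ofNat] at this
        rw [this, f1, f3]; ring
      have he3 : 2 * (((2 * r - 2 - r).choose (r - 1 - 3) : ℕ) : F) = ((r : F) - 2) * (r - 3) := by
        have := congrArg (fun z : ℕ => (z : F)) d3
        simp only [Nat.cast_mul, Nat.cast_ofNat] at this
        rw [this, cc 2 (by omega), cc 3 (by omega)]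
        push_cast; ring
      have z1 : r - 1 + 1 = r := by omega
      have z2 : r - 1 + 2 = r + 1 := by omega
      have z3 : r - 1 + 3 = r + 1 + 1 := by omega
      rw [b1, d1, z1] at q1
      rw [b2, d2, z2, f1, cc 2 (by omega)] at q2
      rw [g3, z3] at q3
      rw [f1] at R1 R2
      push_cast at q1 q2 q3 R1 R2
      have := alg_end (r : F) ((2 * r - 2).choose r : ℕ) ((2 * r - 2).choose (r + 1) : ℕ)
        ((2 * r - 2).choose (r + 1 + 1) : ℕ) ((2 * r - 2 - r).choose (r - 1 - 3) : ℕ)
        (H (r - 1 + r) - H' (r - 1 + r)) (ph r - ph' r)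
        (by linear_combination q1) (by linear_combination q2) (by linear_combination q3)
        he3 (by linear_combination R1) (by linear_combination R2)
        K2 K0 K3 K1 Kp1 K4 two
      exact sub_eq_zero.1 this
    · have hrk3 : r + 1 ≤ k := by omega
      have hc : (((2 * k - 2).choose (k - 1 + r) : ℕ) : F) ≠ 0 :=
        choosene p _ _ (by omega) (by omega)
      have he : (((2 * k - 2 - r).choose (k - 1) : ℕ) : F) ≠ 0 :=
        choosene p _ _ (by omega) (by omega)
      have Rr : (r : F) ≠ 0 := natne p r (by omega) (by omega)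
      have q0 := E 0 (by omega) (by omega) (by omega)
      rw [Nat.sub_zero, Nat.sub_zero] at q0
      push_cast at q0
      by_cases hr3 : r ≤ 2
      · have hH : H (k - 1 + r) = H' (k - 1 + r) := by
          have : r = 1 ∨ r = 2 := by omega
          rcases this with h | h
          · subst h
            have : k - 1 + 1 = k := by omega
            rw [this]; exact e1
          · subst h
            have : k - 1 + 2 = k + 1 := by omega
            rw [this]; exact e2
        refine ⟨hH, fun _ => ?_⟩
        rw [hH, sub_self, mul_zero, zero_add] at q0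
        have hne : ((k : F) - 1) * ((r : F) - 2 * 0) * ((2 * k - 2 - r).choose (k - 1) : ℕ) ≠ 0 := by
          rw [mul_zero, sub_zero]
          exact mul_ne_zero (mul_ne_zero K1 Rr) he
        rcases mul_eq_zero.1 q0 with h | h
        · exact absurd h hne
        · exact sub_eq_zero.1 h
      · have q1 := E 1 (by omega) (by omega) (by omega)
        have q2 := E 2 (by omega) (by omega) (by omega)
        have R1 := ratio (F := F) (2 * k - 2) (k - 1 + (r - 1)) (by omega)
        have R2 := ratio (F := F) (2 * k - 2) (k - 1 + (r - 2)) (by omega)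
        have R3 := ratio (F := F) (2 * k - 2) k (by omega)
        have R4 := ratio (F := F) (2 * k - 2 - r) (k - 1 - 1) (by omega)
        have R5 := ratio (F := F) (2 * k - 2 - r) (k - 1 - 2) (by omega)
        have y1 : k - 1 + (r - 1) + 1 = k - 1 + r := by omega
        have y2 : k - 1 + (r - 2) + 1 = k - 1 + (r - 1) := by omega
        have y4 : k - 1 - 1 + 1 = k - 1 := by omega
        have y5 : k - 1 - 2 + 1 = k - 1 - 1 := by omega
        rw [y1] at R1
        rw [y2] at R2
        rw [y4] at R4
        rw [y5] at R5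
        have f1 : ((2 * k - 2 : ℕ) : F) = 2 * k - 2 := by
          rw [Nat.cast_sub (by omega)]; push_cast; ring
        have f2 : ((2 * k - 2 - r : ℕ) : F) = 2 * k - 2 - r := by
          rw [Nat.cast_sub (by omega), f1]
        have f3 : ((k - 1 + (r - 1) : ℕ) : F) = k + r - 2 := by
          rw [Nat.cast_add, Nat.cast_sub (by omega), Nat.cast_sub (by omega)]; push_cast; ring
        have f4 : ((k - 1 + (r - 2) : ℕ) : F) = k + r - 3 := by
          rw [Nat.cast_add, Nat.cast_sub (by omega), Nat.cast_sub (by omega)]; push_cast; ring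
        have f5 : ((k - 1 - 1 : ℕ) : F) = k - 2 := by
          have : k - 1 - 1 = k - 2 := by omega
          rw [this, cc 2 (by omega)]; push_cast; ring
        have f6 : ((k - 1 - 2 : ℕ) : F) = k - 3 := by
          have : k - 1 - 2 = k - 3 := by omega
          rw [this, cc 3 (by omega)]; push_cast; ring
        rw [f1, f3] at R1
        rw [f1, f4] at R2
        rw [f1] at R3
        rw [f2, f5] at R4
        rw [f2, f6] at R5
        have z1 : k - 1 + 1 = k := by omega
        have z2 : k - 1 + 2 = k + 1 := by omega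
        rw [z1] at q1
        rw [z2] at q2
        push_cast at q1 q2
        have nR2 : (r : F) - 2 ≠ 0 := by
          have := natne (F := F) p (r - 2) (by omega) (by omega)
          rw [Nat.cast_sub (by omega)] at this
          simpa using this
        have nR1 : (r : F) + 1 ≠ 0 := by
          have := natne (F := F) p (r + 1) (by omega) (by omega)
          simpa using this
        have nA : 2 * (k : F) - 2 - r ≠ 0 := by
          have := natne (F := F) p (2 * k - 2 - r) (by omega) (by omega)
          rwa [f2] at this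
        have := alg_mid (k : F) (r : F) ((2 * k - 2).choose (k - 1 + r) : ℕ)
          ((2 * k - 2).choose (k - 1 + (r - 1)) : ℕ) ((2 * k - 2).choose (k - 1 + (r - 2)) : ℕ)
          ((2 * k - 2).choose k : ℕ) ((2 * k - 2).choose (k + 1) : ℕ)
          ((2 * k - 2 - r).choose (k - 1) : ℕ) ((2 * k - 2 - r).choose (k - 1 - 1) : ℕ)
          ((2 * k - 2 - r).choose (k - 1 - 2) : ℕ)
          (H (k - 1 + r) - H' (k - 1 + r)) (ph r - ph' r)
          (by linear_combination q0) (by linear_combination q1) (by linear_combination q2)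
          (by linear_combination R1) (by linear_combination R2) (by linear_combination R3)
          (by linear_combination R4) (by linear_combination R5)
          Rr nA hc three nR2 nR1 K1 he
        exact ⟨sub_eq_zero.1 this.1, fun _ => sub_eq_zero.1 this.2⟩
  exact fun r hr => (main r hr).1

end StsKar
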