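import Pool.Agent.Lib.MP_7eb8d7_co.Tail95
import Pool.Agent.Lib.MP_7eb8d7_co.Kar3

/-! Sets with a restricted sumset of the smallest possible size are arithmetic progressions. -/

namespace StsKar

open Finset Polynomial

/-- Uniqueness of the moment sequence, the form of `uniq` used below. -/
def Uniq (F : Type*) [Field F] (k : ℕ) : Prop :=
  ∀ (H H' ph ph' : ℕ → F), (∀ n, n < k - 1 → H n = 0) → H (k - 1) = 1 →
    (∀ n, n < k - 1 → H' n = 0) → H' (k - 1) = 1 → ph 0 = 1 → ph' 0 = 1 →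
    (∀ i j, S (2 * k - 3) H ph i j = 0) → (∀ i j, S (2 * k - 3) H' ph' i j = 0) →
    H k = H' k → H (k + 1) = H' (k + 1) → ∀ r, r ≤ k → H (k - 1 + r) = H' (k - 1 + r)

theorem exists_ph {F : Type*} [Field F] [DecidableEq F] (A : Finset F) (N : ℕ)
    (hr : #(rs A) ≤ N) :
    ∃ ph : ℕ → F, ph 0 = 1 ∧ ∀ i j, S N (Hs A) ph i j = 0 := by
  have hdeg : ((Lagrange.nodal (rs A) (fun z : F => z)) * X ^ (N - #(rs A))).natDegree = N := by
    rw [natDegree_mul_X_pow _ (Lagrange.nodal_monic).ne_zero, Lagrange.natDegree_nodal]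
    omega
  refine ⟨fun l => ((Lagrange.nodal (rs A) (fun z : F => z)) * X ^ (N - #(rs A))).coeff (N - l),
    ?_, ?_⟩
  · have hm : ((Lagrange.nodal (rs A) (fun z : F => z)) * X ^ (N - #(rs A))).Monic :=
      (Lagrange.nodal_monic).mul (monic_X_pow _)
    have := hm.coeff_natDegree
    rw [hdeg] at this
    simp only [Nat.sub_zero]
    exact this
  · intro i j
    apply S_zero A _ N (le_of_eq hdeg)
    intro a ha b hb hab
    rw [eval_mul]
    have : eval (a + b) (Lagrange.nodal (rs A) (fun z : F => z)) = 0 :=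
      (mem_iff_nodal (rs A) (a + b)).1 (mem_rs.2 ⟨a, ha, b, hb, hab, rfl⟩)
    rw [this, zero_mul]

theorem S_triv {F : Type*} [Field F] (k : ℕ) (hk : 5 ≤ k) (i j : ℕ) :
    S (2 * k - 3) (fun n => if n = k - 1 then (1 : F) else 0)
      (fun l => if l = 0 then (1 : F) else 0) i j = 0 := by
  unfold S
  apply sum_eq_zero
  intro l hl
  apply sum_eq_zero
  intro s hs
  rw [mem_range] at hl hs
  by_cases hl0 : l = 0
  · subst hl0
    by_cases h1 : i + s = k - 1
    · by_cases h2 : j + (2 * k - 3 - 0 + 1 - s) = k - 1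
      · have hs1 : s = k - 1 := by omega
        have hcf : cf (2 * k - 3 - 0) s = 0 := by
          unfold cf
          rw [hs1, if_neg (by omega)]
          have : (2 * k - 3 - 0).choose (k - 1) = (2 * k - 3 - 0).choose (k - 1 - 1) := by
            rw [← Nat.choose_symm (by omega : k - 1 ≤ 2 * k - 3 - 0)]
            congr 1
            omega
          rw [this, sub_self]
        rw [hcf]
        simp
      · simp only [if_neg h2, mul_zero]
    · simp only [if_neg h1, zero_mul, mul_zero]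
  · simp only [if_neg hl0, zero_mul]

theorem Hs_ne {F : Type*} [Field F] [DecidableEq F] (k : ℕ) (hk : 5 ≤ k) (hU : Uniq F k)
    (A : Finset F) (hA : #A = k) (hr : #(rs A) ≤ 2 * k - 3) (hs : ∑ a ∈ A, a = 0) :
    Hs A (k + 1) ≠ 0 := by
  intro h
  obtain ⟨ph, hph, hS⟩ := exists_ph A (2 * k - 3) hr
  have hu := hU (Hs A) (fun n => if n = k - 1 then (1 : F) else 0) ph
    (fun l => if l = 0 then (1 : F) else 0) (fun n hn => Hs_lt (by omega)) (Hs_eq (by omega))
    (fun n hn => if_neg (by omega)) (if_pos rfl) hph (if_pos rfl) hS (S_triv k hk)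
    (by rw [Hs_card A k (by omega) hA, hs, if_neg (by omega)])
    (by rw [h, if_neg (by omega)])
  have hz := zero_of_Hs A k (by omega) hA (by
    intro r hr1 hr2
    rw [hu r hr2, if_neg (by omega)])
  have hle : #A ≤ 1 := by
    rw [card_le_one]
    intro a ha b hb
    rw [hz a ha, hz b hb]
  omega

/-- the centred arithmetic progression -/
def Bk (F : Type*) [Field F] [DecidableEq F] (k : ℕ) : Finset F :=
  (range k).image (fun i : ℕ => 2 * (i : F) - ((k : F) - 1))

theorem cast_inj' {F : Type*} [Field F] (p : ℕ) [Fact p.Prime] [CharP F p] {i j : ℕ}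
    (hi : i < p) (hj : j < p) (h : (i : F) = (j : F)) : i = j := by
  have := CharP.natCast_injOn_Iio F p
  exact this (Set.mem_Iio.2 hi) (Set.mem_Iio.2 hj) h

theorem two_ne {F : Type*} [Field F] (p : ℕ) [Fact p.Prime] [CharP F p] (hp : 2 < p) :
    (2 : F) ≠ 0 := by
  have := natne (F := F) p 2 (by omega) (by omega)
  exact_mod_cast this

theorem Bk_inj {F : Type*} [Field F] (p : ℕ) [Fact p.Prime] [CharP F p] (k : ℕ)
    (hp : 2 * k < p) (hk : 5 ≤ k) :
    Set.InjOn (fun i : ℕ => 2 * (i : F) - ((k : F) - 1)) (range k : Set ℕ) := by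
  intro i hi j hj h
  rw [mem_coe, mem_range] at hi hj
  have h2 : (2 : F) * (i : F) = 2 * (j : F) := by
    have := h
    simp only at this
    linear_combination this
  exact cast_inj' (F := F) p (by omega) (by omega) (mul_left_cancel₀ (two_ne p (by omega)) h2)

theorem card_Bk {F : Type*} [Field F] [DecidableEq F] (p : ℕ) [Fact p.Prime] [CharP F p] (k : ℕ)
    (hp : 2 * k < p) (hk : 5 ≤ k) : #(Bk F k) = k := by
  unfold Bk
  rw [card_image_of_injOn (Bk_inj p k hp hk), card_range]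

theorem sum_lin {F : Type*} [Field F] (k : ℕ) (c : F) :
    ∑ i ∈ range k, (2 * (i : F) - c) = (k : F) * ((k : F) - 1 - c) := by
  induction k with
  | zero => simp
  | succ n ih =>
    rw [sum_range_succ, ih]
    push_cast
    ring

theorem sum_Bk {F : Type*} [Field F] [DecidableEq F] (p : ℕ) [Fact p.Prime] [CharP F p] (k : ℕ)
    (hp : 2 * k < p) (hk : 5 ≤ k) : ∑ a ∈ Bk F k, a = 0 := by
  unfold Bk
  rw [sum_image (fun x hx y hy h => Bk_inj p k hp hk hx hy h), sum_lin]
  ring

theorem rs_Bk {F : Type*} [Field F] [DecidableEq F] (k : ℕ) :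
    #(rs (Bk F k)) ≤ 2 * k - 3 := by
  have hsub : rs (Bk F k) ⊆
      (Icc 1 (2 * k - 3)).image (fun t : ℕ => 2 * (t : F) - 2 * ((k : F) - 1)) := by
    intro z hz
    rw [mem_rs] at hz
    obtain ⟨x, hx, y, hy, hxy, rfl⟩ := hz
    unfold Bk at hx hy
    rw [mem_image] at hx hy
    obtain ⟨i, hi, rfl⟩ := hx
    obtain ⟨j, hj, rfl⟩ := hy
    rw [mem_range] at hi hj
    have hij : i ≠ j := fun h => hxy (by rw [h])
    rw [mem_image]
    refine ⟨i + j, ?_, ?_⟩
    · rw [mem_Icc]; omega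
    · push_cast; ring
  calc #(rs (Bk F k)) ≤ _ := card_le_card hsub
    _ ≤ #(Icc 1 (2 * k - 3)) := card_image_le
    _ = 2 * k - 3 := by rw [Nat.card_Icc]; omega

theorem ap_centred {F : Type*} [Field F] [DecidableEq F] [IsAlgClosed F] (p : ℕ) [Fact p.Prime]
    [CharP F p] (k : ℕ) (hk : 5 ≤ k) (hp : 2 * k < p) (hU : Uniq F k)
    (A : Finset F) (hA : #A = k) (hr : #(rs A) ≤ 2 * k - 3) (hs : ∑ a ∈ A, a = 0) :
    ∃ d : F, d ≠ 0 ∧ A = (Bk F k).image (fun a => d * a) := by
  have hB := card_Bk (F := F) p k hp hk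
  have hne := Hs_ne k hk hU A hA hr hs
  have hneB := Hs_ne k hk hU (Bk F k) hB (rs_Bk k) (sum_Bk p k hp hk)
  obtain ⟨d, hd⟩ := IsAlgClosed.exists_pow_nat_eq (Hs A (k + 1) / Hs (Bk F k) (k + 1))
    (show 0 < 2 by norm_num)
  have hd0 : d ≠ 0 := by
    intro h
    rw [h] at hd
    have : Hs A (k + 1) / Hs (Bk F k) (k + 1) = 0 := by rw [← hd]; ring
    rw [div_eq_zero_iff] at this
    rcases this with h | h
    · exact hne h
    · exact hneB h
  refine ⟨d, hd0, ?_⟩
  have hcD : #((Bk F k).image (fun a => d * a)) = k := by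
    rw [card_image_of_injective _ (mul_right_injective₀ hd0), hB]
  obtain ⟨ph, hph, hS⟩ := exists_ph A (2 * k - 3) hr
  obtain ⟨ph', hph', hS'⟩ := exists_ph ((Bk F k).image (fun a => d * a)) (2 * k - 3)
    (by rw [card_rs_mul _ d hd0]; exact rs_Bk k)
  apply eq_of_Hs _ _ k (by omega) hA hcD
  apply hU _ _ ph ph' (fun n hn => Hs_lt (by omega)) (Hs_eq (by omega))
    (fun n hn => Hs_lt (by omega)) (Hs_eq (by omega)) hph hph' hS hS'
  · rw [Hs_card A k (by omega) hA, hs, Hs_card _ k (by omega) hcD,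
      sum_image (fun x _ y _ h => mul_right_injective₀ hd0 h), ← mul_sum, sum_Bk p k hp hk,
      mul_zero]
  · have h2 := Hs_mul' (Bk F k) k hB (by omega) d hd0 2
    have e : k - 1 + 2 = k + 1 := by omega
    rw [e] at h2
    rw [h2, hd]
    field_simp

theorem karolyi_of_uniq (p : ℕ) [Fact p.Prime] (k : ℕ) (hk : 5 ≤ k) (hp : 2 * k < p)
    (hU : Uniq (AlgebraicClosure (ZMod p)) k)
    (A : Finset (ZMod p)) (hA : #A = k) (hr : #(rs A) ≤ 2 * k - 3) :
    ∃ s d : ZMod p, d ≠ 0 ∧ A = (range k).image (fun i : ℕ => s + (i : ZMod p) * d) := by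
  classical
  have hk0 : (k : ZMod p) ≠ 0 := natne p k (by omega) (by omega)
  have h2 : (2 : ZMod p) ≠ 0 := two_ne p (by omega)
  set c : ZMod p := -((∑ a ∈ A, a) / (k : ZMod p)) with hc
  set A1 : Finset (ZMod p) := A.image (fun a => a + c) with hA1
  have hcA1 : #A1 = k := by rw [hA1, card_image_of_injective _ (add_left_injective c), hA]
  have hrA1 : #(rs A1) ≤ 2 * k - 3 := by rw [hA1, card_rs_add]; exact hr
  have hsA1 : ∑ a ∈ A1, a = 0 := by
    rw [hA1, sum_image (fun x _ y _ h => add_left_injective c h), sum_add_distrib, sum_const, hA,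
      nsmul_eq_mul, hc]
    field_simp
    ring
  let φ : ZMod p →+* AlgebraicClosure (ZMod p) := algebraMap (ZMod p) (AlgebraicClosure (ZMod p))
  have hφ : Function.Injective φ := φ.injective
  have : CharP (AlgebraicClosure (ZMod p)) p := charP_of_injective_ringHom hφ p
  have hcA2 : #(A1.image φ) = k := by rw [card_image_of_injective _ hφ, hcA1]
  have hrsA2 : rs (A1.image φ) = (rs A1).image φ := by
    ext z
    simp only [mem_rs, mem_image]
    constructor
    · rintro ⟨x, ⟨a, ha, rfl⟩, y, ⟨b, hb, rfl⟩, hxy, rfl⟩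
      exact ⟨a + b, ⟨a, ha, b, hb, fun h => hxy (by rw [h]), rfl⟩, by rw [map_add]⟩
    · rintro ⟨w, ⟨a, ha, b, hb, hab, rfl⟩, rfl⟩
      exact ⟨φ a, ⟨a, ha, rfl⟩, φ b, ⟨b, hb, rfl⟩, fun h => hab (hφ h), by rw [map_add]⟩
  obtain ⟨d, hd0, hd⟩ := ap_centred p k hk hp hU (A1.image φ) hcA2
    (by rw [hrsA2, card_image_of_injective _ hφ]; exact hrA1)
    (by rw [sum_image (fun x _ y _ h => hφ h), ← map_sum, hsA1, map_zero])
  have hmem : ∀ i : ℕ, i < k → ∃ x ∈ A1, φ x = d * (2 * (i : AlgebraicClosure (ZMod p)) -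
      ((k : AlgebraicClosure (ZMod p)) - 1)) := by
    intro i hi
    have : d * (2 * (i : AlgebraicClosure (ZMod p)) - ((k : AlgebraicClosure (ZMod p)) - 1)) ∈
        A1.image φ := by
      rw [hd, mem_image]
      refine ⟨_, ?_, rfl⟩
      unfold Bk
      rw [mem_image]
      exact ⟨i, mem_range.2 hi, rfl⟩
    rw [mem_image] at this
    exact this
  obtain ⟨x0, _, hx0⟩ := hmem 0 (by omega)
  obtain ⟨x1, _, hx1⟩ := hmem 1 (by omega)
  have h2K : (2 : AlgebraicClosure (ZMod p)) ≠ 0 := two_ne p (by omega)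
  have hdd : φ ((x1 - x0) / 2) = d := by
    rw [map_div₀, map_sub, hx0, hx1]
    have e2 : φ 2 = 2 := map_ofNat φ 2
    rw [e2]
    push_cast
    field_simp
    ring
  set d0 : ZMod p := (x1 - x0) / 2 with hd0'
  have hd00 : d0 ≠ 0 := by
    intro h
    rw [h, map_zero] at hdd
    exact hd0 hdd.symm
  have hA1eq : A1 = (range k).image (fun i : ℕ => d0 * (2 * (i : ZMod p) - ((k : ZMod p) - 1))) := by
    apply image_injective hφ
    rw [hd]
    unfold Bk
    rw [image_image, image_image]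
    apply image_congr
    intro i _
    simp only [Function.comp_apply]
    rw [map_mul, hdd, map_sub, map_sub, map_mul, map_natCast, map_natCast, map_one, map_ofNat]
  have hAeq : A = A1.image (fun a => a + (-c)) := by
    rw [hA1, image_image]
    have : ((fun a : ZMod p => a + -c) ∘ fun a => a + c) = id := by
      funext a
      simp
    rw [this, image_id]
  refine ⟨-(d0 * ((k : ZMod p) - 1)) - c, 2 * d0, mul_ne_zero h2 hd00, ?_⟩
  rw [hAeq, hA1eq, image_image]
  apply image_congr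
  intro i _
  simp only [Function.comp_apply]
  ring

theorem uniq_holds (p : ℕ) [Fact p.Prime] (F : Type*) [Field F] [CharP F p] (k : ℕ) (hk : 5 ≤ k)
    (hp : 2 * k < p) : Uniq F k := by
  intro H H' ph ph' h0 h1 h0' h1' hph hph' hS hS' e1 e2 r hr
  exact uniq p k hk hp H H' ph ph' h0 h1 h0' h1' hph hph' hS hS' e1 e2 r hr

/-- **Karolyi's theorem**: a set of k ≥ 5 elements of Z_p, 2k < p, with at most 2k - 3 sums of
two distinct elements is an arithmetic progression. -/
theorem karolyi (p : ℕ) [Fact p.Prime] (k : ℕ) (hk : 5 ≤ k) (hp : 2 * k < p)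
    (A : Finset (ZMod p)) (hA : #A = k) (hr : #(rs A) ≤ 2 * k - 3) :
    ∃ s d : ZMod p, d ≠ 0 ∧ A = (range k).image (fun i : ℕ => s + (i : ZMod p) * d) :=
  haveI : CharP (AlgebraicClosure (ZMod p)) p :=
    charP_of_injective_ringHom
      (algebraMap (ZMod p) (AlgebraicClosure (ZMod p))).injective p
  karolyi_of_uniq p k hk hp (uniq_holds p _ k hk hp) A hA hr

end StsKar
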