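import Pool.Agent.Lib.MP_7eb8d7_co.Defs

/-!
# MP_7eb8d7_co: arithmetic progressions
-/

open Finset

namespace STS7

theorem caseAP76 {p : ℕ} [Fact p.Prime] (hp : 3 < p) (color : ZMod p → Bool)
    (hc : ∀ x : ZMod p, x ≠ 0 → color (-2 * x) = !color x) (b : Bool) (W : Finset (ZMod p))
    (w : ℕ) (hw5 : 5 ≤ w) (hwp : 2 * w < p) (a d : ZMod p) (hd : d ≠ 0)
    (hW : W = (range w).image (fun i : ℕ => a + (i : ZMod p) * d))
    (h0 : 0 ∉ W) (hsub : ∀ x ∈ W, -x ∈ dsum W) (hcol : ∀ x ∈ W, -2 * x ∈ W → color x = b) :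
    False := by
  have h3 : (3 : ZMod p) ≠ 0 := by
    have : ((3 : ℕ) : ZMod p) ≠ 0 := by
      rw [Ne, ZMod.natCast_eq_zero_iff]
      intro h
      have := Nat.le_of_dvd (by norm_num) h
      omega
    exact_mod_cast this
  have hmem : ∀ i, i < w → a + (i : ZMod p) * d ∈ W := by
    intro i hi
    rw [hW]
    exact mem_image.2 ⟨i, mem_range.2 hi, rfl⟩
  have hs : ∀ i, i < w → ∃ s : ℕ, 1 ≤ s ∧ s ≤ 2 * w - 3 ∧ -3 * a = ((i + s : ℕ) : ZMod p) * d := by
    intro i hi
    have h := hsub _ (hmem i hi)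
    rw [dsum, mem_image] at h
    obtain ⟨⟨u, v⟩, hq, huv⟩ := h
    simp only [mem_filter, mem_product] at hq huv
    obtain ⟨⟨hu, hv⟩, hne⟩ := hq
    rw [hW, mem_image] at hu hv
    obtain ⟨j, hj, rfl⟩ := hu
    obtain ⟨l, hl, rfl⟩ := hv
    rw [mem_range] at hj hl
    have hjl : j ≠ l := by rintro rfl; exact hne rfl
    refine ⟨j + l, by omega, by omega, ?_⟩
    push_cast
    linear_combination -huv
  obtain ⟨c, hc1, hc2, hcE⟩ := hs 0 (by omega)
  rw [zero_add] at hcE
  have hcw : w ≤ c := by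
    by_contra hlt
    push Not at hlt
    obtain ⟨s, hs1, hs2, hsE⟩ := hs c hlt
    have : ((s : ℕ) : ZMod p) * d = 0 := by
      have h := hcE.symm.trans hsE
      push_cast at h
      linear_combination -h
    rcases mul_eq_zero.1 this with h | h
    · rw [ZMod.natCast_eq_zero_iff] at h
      have := Nat.le_of_dvd (by omega) h
      omega
    · exact hd h
  have key : ∀ i j : ℕ, j + 2 * i = c → -2 * (a + (i : ZMod p) * d) = a + (j : ZMod p) * d := by
    intro i j hij
    rw [← hij] at hcE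
    push_cast at hcE
    linear_combination hcE
  have hne0 : ∀ i, i < w → a + (i : ZMod p) * d ≠ 0 := by
    intro i hi h
    apply h0
    rw [← h]
    exact hmem i hi
  have chain : ∀ i j l : ℕ, i < w → j < w → l < w → j + 2 * i = c → l + 2 * j = c → False := by
    intro i j l hi hj hl e1 e2
    have k1 := key i j e1
    have k2 := key j l e2
    have c1 := hcol _ (hmem i hi) (by rw [k1]; exact hmem j hj)
    have c2 := hcol _ (hmem j hj) (by rw [k2]; exact hmem l hl)
    have c3 := hc _ (hne0 i hi)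
    rw [k1, c1, c2] at c3
    cases b <;> simp at c3
  have hmod : c % 3 = 0 ∨ c % 3 = 1 ∨ c % 3 = 2 := by omega
  rcases hmod with h | h | h
  · have k := key (c / 3) (c / 3) (by omega)
    have : (3 : ZMod p) * (a + ((c / 3 : ℕ) : ZMod p) * d) = 0 := by linear_combination -k
    rcases mul_eq_zero.1 this with h' | h'
    · exact h3 h'
    · exact hne0 (c / 3) (by omega) h'
  · exact chain (c / 3) (c / 3 + 1) (c / 3 - 1) (by omega) (by omega) (by omega) (by omega)
      (by omega)
  · exact chain (c / 3 + 1) (c / 3) (c / 3 + 2) (by omega) (by omega) (by omega) (by omega)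
      (by omega)

end STS7
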