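import Pool.Agent.Lib.MP_7eb8d7_co.Defs

/-!
# MP_7eb8d7_co: the arithmetic progression case (`caseAP`)
-/

set_option autoImplicit false

open Finset

namespace STS7

/-- There is no arithmetic progression of length at least five which has no new point. -/
theorem caseAP {p : ℕ} [Fact p.Prime] (h3p : 3 < p) (color : ZMod p → Bool)
    (hc : ∀ x : ZMod p, x ≠ 0 → color (-2 * x) = !color x) (b : Bool) (w : ℕ)
    (W : Finset (ZMod p)) (a d : ZMod p)
    (hW : W = (range w).image (fun i : ℕ => a + (i : ZMod p) * d))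
    (hd : d ≠ 0) (h5 : 5 ≤ w) (hwp : 2 * w < p) (h0 : (0 : ZMod p) ∉ W)
    (hWD : ∀ x ∈ W, -x ∈ dsum W)
    (hcol : ∀ x ∈ W, -2 * x ∈ W → color x = b) : False := by
  have hmem : ∀ i, i < w → a + (i : ZMod p) * d ∈ W := fun i hi => by
    rw [hW]; exact mem_image.2 ⟨i, mem_range.2 hi, rfl⟩
  have hcast : ∀ m n : ℕ, m < p → n < p → (m : ZMod p) = n → m = n := by
    intro m n hm hn h
    have h1 := congrArg ZMod.val h
    rwa [ZMod.val_natCast_of_lt hm, ZMod.val_natCast_of_lt hn] at h1
  have key : ∀ i, i < w → ∃ s, 1 ≤ s ∧ s ≤ 2 * w - 3 ∧ -3 * a = ((i + s : ℕ) : ZMod p) * d := by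
    intro i hi
    obtain ⟨⟨u, v⟩, huv, hs⟩ := mem_image.1 (hWD _ (hmem i hi))
    rw [mem_filter, mem_product] at huv
    obtain ⟨⟨hu, hv⟩, hne⟩ := huv
    dsimp only at hu hv hne hs
    rw [hW] at hu hv
    obtain ⟨j, hj, rfl⟩ := mem_image.1 hu
    obtain ⟨k, hk, rfl⟩ := mem_image.1 hv
    rw [mem_range] at hj hk
    have hjk : j ≠ k := by rintro rfl; exact hne rfl
    refine ⟨j + k, by omega, by omega, ?_⟩
    push_cast
    linear_combination -hs
  obtain ⟨c, hc1, hc2, hca⟩ := key 0 (by omega)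
  rw [zero_add] at hca
  have hcw : w ≤ c := by
    by_contra hlt
    push Not at hlt
    obtain ⟨s, hs1, hs2, hs3⟩ := key c hlt
    have h1 : ((s : ℕ) : ZMod p) = ((0 : ℕ) : ZMod p) := by
      have h2 : (c : ZMod p) * d = ((c + s : ℕ) : ZMod p) * d := by rw [← hca, hs3]
      have h3 := mul_right_cancel₀ hd h2
      push_cast at h3 ⊢
      linear_combination -h3
    have := hcast s 0 (by omega) (by omega) h1
    omega
  have hdbl : ∀ i j, 2 * i + j = c → -2 * (a + (i : ZMod p) * d) = a + (j : ZMod p) * d := by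
    intro i j hij
    have h1 : -3 * a = ((2 * i + j : ℕ) : ZMod p) * d := by rw [hij]; exact hca
    push_cast at h1
    linear_combination h1
  have hne : ∀ i, i < w → a + (i : ZMod p) * d ≠ 0 := fun i hi h => h0 (h ▸ hmem i hi)
  have hbb : ∀ i j k, i < w → j < w → k < w → 2 * i + j = c → 2 * j + k = c → False := by
    intro i j k hi hj hk h1 h2
    have e1 := hdbl i j h1
    have e2 := hdbl j k h2
    have c1 : color (a + (i : ZMod p) * d) = b := hcol _ (hmem i hi) (by rw [e1]; exact hmem j hj)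
    have c2 : color (a + (j : ZMod p) * d) = b := hcol _ (hmem j hj) (by rw [e2]; exact hmem k hk)
    have c3 := hc _ (hne i hi)
    rw [e1, c1, c2] at c3
    cases b <;> simp at c3
  rcases (by omega : c % 3 = 0 ∨ c % 3 = 1 ∨ c % 3 = 2) with h | h | h
  · set m := c / 3 with hm
    have hcm : c = 3 * m := by omega
    have e1 := hdbl m m (by omega)
    have h4 : (3 : ZMod p) * (a + (m : ZMod p) * d) = 0 := by linear_combination -e1
    have h3 : (3 : ZMod p) ≠ 0 := by
      have : ((3 : ℕ) : ZMod p) ≠ ((0 : ℕ) : ZMod p) := fun h =>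
        absurd (hcast 3 0 h3p (by omega) h) (by norm_num)
      simpa using this
    exact hne m (by omega) ((mul_eq_zero.1 h4).resolve_left h3)
  · exact hbb (c / 3) (c / 3 + 1) (c / 3 - 1) (by omega) (by omega) (by omega) (by omega)
      (by omega)
  · exact hbb (c / 3 + 1) (c / 3) (c / 3 + 2) (by omega) (by omega) (by omega) (by omega)
      (by omega)

end STS7
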