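import Mathlib

/-!
# Steiner triple systems on `p + 2` points: the small cases (helper92, typed by helper69)

`W` has three or four elements, `W` is contained in the negatives of the sums of two different
elements of `W`. The involution `gg` has a value outside `W` and outside these negatives.
-/

set_option autoImplicit false

open Finset

noncomputable section

namespace Pool.Agent.STS7eb

variable {F : Type*} [Field F] [DecidableEq F]

/-- the third point of `x` and the infinite point `b` -/
def gg (color : F → Bool) (b : Bool) (x : F) : F := if color x = b then -2 * x else -x / 2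

/-- the sums of two different elements -/
def DD (W : Finset F) : Finset F :=
  ((W ×ˢ W).filter (fun q => q.1 ≠ q.2)).image (fun q => q.1 + q.2)

theorem mem_DD {W : Finset F} {z : F} :
    z ∈ DD W ↔ ∃ u ∈ W, ∃ v ∈ W, u ≠ v ∧ u + v = z := by
  unfold DD
  simp only [mem_image, mem_filter, mem_product, Prod.exists]
  constructor
  · rintro ⟨a, b, ⟨⟨ha, hb⟩, hab⟩, h⟩
    exact ⟨a, ha, b, hb, hab, h⟩
  · rintro ⟨a, ha, b, hb, hab, h⟩
    exact ⟨a, b, ⟨⟨ha, hb⟩, hab⟩, h⟩

section invol

variable {color : F → Bool} {b : Bool}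

omit [DecidableEq F] in
theorem gg_ne_zero (h2 : (2 : F) ≠ 0) {x : F} (hx : x ≠ 0) : gg color b x ≠ 0 := by
  unfold gg
  split
  · exact mul_ne_zero (neg_ne_zero.2 h2) hx
  · exact div_ne_zero (neg_ne_zero.2 hx) h2

omit [DecidableEq F] in
theorem gg_gg (h2 : (2 : F) ≠ 0) (hc : ∀ x : F, x ≠ 0 → color (-2 * x) = !color x) {x : F}
    (hx : x ≠ 0) : gg color b (gg color b x) = x := by
  by_cases h : color x = b
  · have h1 : gg color b x = -2 * x := by unfold gg; rw [if_pos h]
    rw [h1]
    unfold gg
    rw [if_neg]
    · field_simp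
    · rw [hc x hx, h]
      cases b <;> decide
  · have h1 : gg color b x = -x / 2 := by unfold gg; rw [if_neg h]
    rw [h1]
    have hy : -x / 2 ≠ 0 := div_ne_zero (neg_ne_zero.2 hx) h2
    have h3 := hc _ hy
    have h4 : -2 * (-x / 2) = x := by field_simp
    rw [h4] at h3
    unfold gg
    rw [if_pos, h4]
    revert h h3
    generalize color x = a
    generalize color (-x / 2) = c
    cases a <;> cases b <;> cases c <;> decide

omit [DecidableEq F] in
theorem gg_ne (h2 : (2 : F) ≠ 0) (h3 : (3 : F) ≠ 0) {x : F} (hx : x ≠ 0) :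
    gg color b x ≠ x := by
  intro h
  unfold gg at h
  split at h
  · have : 3 * x = 0 := by linear_combination -h
    exact (mul_ne_zero h3 hx) this
  · have h4 : -x / 2 * 2 = x * 2 := by rw [h]
    rw [div_mul_cancel₀ _ h2] at h4
    have : 3 * x = 0 := by linear_combination -h4
    exact (mul_ne_zero h3 hx) this

omit [DecidableEq F] in
/-- a set which is invariant has an even number of elements -/
theorem even_of_inv (h2 : (2 : F) ≠ 0) (h3 : (3 : F) ≠ 0)
    (hc : ∀ x : F, x ≠ 0 → color (-2 * x) = !color x) (S : Finset F) (h0 : (0 : F) ∉ S)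
    (hS : ∀ x ∈ S, gg color b x ∈ S) : Even #S := by
  have hne : ∀ x ∈ S, x ≠ 0 := fun x hx h => h0 (h ▸ hx)
  have h5 : ∑ _x ∈ S, (1 : ZMod 2) = 0 := by
    apply Finset.sum_involution (fun a _ => gg color b a)
    · intro a _; decide
    · intro a ha _
      exact gg_ne h2 h3 (hne a ha)
    · intro a ha
      exact hS a ha
    · intro a ha
      exact gg_gg h2 hc (hne a ha)
  rw [Finset.sum_const, nsmul_eq_mul, mul_one] at h5
  exact (ZMod.natCast_eq_zero_iff_even).1 h5

end invol

/-- **the cases of three and four elements** -/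
theorem case34 (h2 : (2 : F) ≠ 0) (h3 : (3 : F) ≠ 0) (color : F → Bool)
    (hc : ∀ x : F, x ≠ 0 → color (-2 * x) = !color x) (b : Bool) (W : Finset F)
    (hw : #W = 3 ∨ #W = 4) (hD : #(DD W) ≤ 2 * #W - 3) (h0 : (0 : F) ∉ W)
    (hWD : ∀ x ∈ W, -x ∈ DD W) (hcol : ∀ x ∈ W, -2 * x ∈ W → color x = b) :
    ∃ v ∈ W, gg color b v ∉ W ∧ -gg color b v ∉ DD W := by
  have hne : ∀ x ∈ W, x ≠ 0 := fun x hx h => h0 (h ▸ hx)
  by_contra hno
  push Not at hno
  -- the negatives of the sums
  set N : Finset F := (DD W).image fun x => -x with hN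
  have hNc : #N ≤ 2 * #W - 3 := by
    rw [hN]
    exact le_trans Finset.card_image_le hD
  have hmem : ∀ x, x ∈ N ↔ -x ∈ DD W := by
    intro x
    rw [hN, mem_image]
    constructor
    · rintro ⟨y, hy, rfl⟩
      rwa [neg_neg]
    · intro h
      exact ⟨_, h, neg_neg x⟩
  have hWN : W ⊆ N := fun x hx => (hmem x).2 (hWD x hx)
  set W1 : Finset F := W.filter fun v => gg color b v ∉ W with hW1
  set W2 : Finset F := W.filter fun v => gg color b v ∈ W with hW2
  have hsum : #W2 + #W1 = #W := by
    rw [hW1, hW2]
    exact Finset.card_filter_add_card_filter_not _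
  have hW2e : Even #W2 := by
    apply even_of_inv h2 h3 hc W2 (fun h => h0 (mem_filter.1 h).1)
    intro x hx
    have hx' := mem_filter.1 hx
    refine mem_filter.2 ⟨hx'.2, ?_⟩
    rw [gg_gg h2 hc (hne x hx'.1)]
    exact hx'.1
  have hW1c : #W1 ≤ #(N \ W) := by
    apply Finset.card_le_card_of_injOn (fun v => gg color b v)
    · intro v hv
      have hv' := mem_filter.1 (Finset.mem_coe.1 hv)
      rw [Finset.mem_coe, mem_sdiff, hmem]
      exact ⟨hno v hv'.1 hv'.2, hv'.2⟩
    · intro u hu v hv huv
      have hu' := mem_filter.1 (Finset.mem_coe.1 hu)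
      have hv' := mem_filter.1 (Finset.mem_coe.1 hv)
      have h4 : gg color b u = gg color b v := huv
      rw [← gg_gg h2 hc (hne u hu'.1) (b := b), h4, gg_gg h2 hc (hne v hv'.1)]
  have hNW : #(N \ W) = #N - #W := Finset.card_sdiff_of_subset hWN
  have hall : ∀ v ∈ W, gg color b v ∈ W := by
    have h4 : #W1 = 0 := by
      rw [even_iff_exists_two_mul] at hW2e
      obtain ⟨c, hc'⟩ := hW2e
      rcases hw with hw | hw <;> omega
    intro v hv
    by_contra h
    have h5 : v ∈ W1 := mem_filter.2 ⟨hv, h⟩
    rw [Finset.card_eq_zero.1 h4] at h5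
    simp at h5
  have hWe : Even #W := by
    apply even_of_inv h2 h3 hc W h0 hall
  have hw4 : #W = 4 := by
    rcases hw with hw | hw
    · rw [hw] at hWe; exact absurd hWe (by decide)
    · exact hw
  -- representatives with the colour `b`
  have hrep : ∀ v ∈ W, ∃ x ∈ W, color x = b ∧ -2 * x ∈ W ∧ (v = x ∨ v = -2 * x) := by
    intro v hv
    by_cases h : color v = b
    · refine ⟨v, hv, h, ?_, Or.inl rfl⟩
      have := hall v hv
      unfold gg at this
      rwa [if_pos h] at this
    · have h4 : gg color b v = -v / 2 := by unfold gg; rw [if_neg h]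
      have h5 : -2 * (-v / 2) = v := by field_simp
      refine ⟨-v / 2, h4 ▸ hall v hv, ?_, ?_, Or.inr h5.symm⟩
      · have h6 := hc (-v / 2) (div_ne_zero (neg_ne_zero.2 (hne v hv)) h2)
        rw [h5] at h6
        revert h h6
        generalize color v = a
        generalize color (-v / 2) = c
        cases a <;> cases b <;> cases c <;> decide
      · rw [h5]; exact hv
  obtain ⟨v, hv⟩ : W.Nonempty := Finset.card_pos.1 (by omega)
  obtain ⟨x, hx, hxb, hx2, -⟩ := hrep v hv
  have hx0 := hne x hx
  obtain ⟨v', hv', hv'x⟩ : ∃ v' ∈ W, v' ∉ ({x, -2 * x} : Finset F) := by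
    by_contra h
    push Not at h
    have h4 : #W ≤ #({x, -2 * x} : Finset F) := Finset.card_le_card h
    have h5 : #({x, -2 * x} : Finset F) ≤ 2 := Finset.card_le_two
    omega
  obtain ⟨y, hy, hyb, hy2, hvy⟩ := hrep v' hv'
  have hy0 := hne y hy
  simp only [mem_insert, mem_singleton, not_or] at hv'x
  have hcx : color (-2 * x) = !b := by rw [hc x hx0, hxb]
  have hcy : color (-2 * y) = !b := by rw [hc y hy0, hyb]
  have hb : b ≠ !b := by cases b <;> decide
  have hyx : y ≠ x := by
    rintro rfl
    rcases hvy with h | h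
    · exact hv'x.1 h
    · exact hv'x.2 h
  have hy2x : y ≠ -2 * x := by
    intro h
    apply hb
    rw [← hcx, ← h, hyb]
  have hx2y : x ≠ -2 * y := by
    intro h
    apply hb
    rw [← hcy, ← h, hxb]
  have h22 : -2 * x ≠ -2 * y := by
    intro h
    exact hyx (mul_left_cancel₀ (neg_ne_zero.2 h2) h.symm)
  have h3x : x ≠ -2 * x := by
    intro h
    have : 3 * x = 0 := by linear_combination h
    exact mul_ne_zero h3 hx0 this
  have h3y : y ≠ -2 * y := by
    intro h
    have : 3 * y = 0 := by linear_combination h
    exact mul_ne_zero h3 hy0 this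
  have hWeq : ({x, -2 * x, y, -2 * y} : Finset F) = W := by
    apply Finset.eq_of_subset_of_card_le
    · intro z hz
      simp only [mem_insert, mem_singleton] at hz
      rcases hz with rfl | rfl | rfl | rfl <;> assumption
    · rw [hw4, Finset.card_insert_of_notMem, Finset.card_insert_of_notMem,
        Finset.card_insert_of_notMem, Finset.card_singleton]
      · simp only [mem_singleton]; exact h3y
      · simp only [mem_insert, mem_singleton, not_or]; exact ⟨hy2x.symm, h22⟩
      · simp only [mem_insert, mem_singleton, not_or]; exact ⟨h3x, hyx.symm, hx2y⟩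
  obtain ⟨u, hu, u', hu', huu, hs⟩ := mem_DD.1 (hWD _ hx2)
  have h4x : y ≠ 4 * x := by
    intro h
    have h6 : -2 * (-2 * x) ∈ W := by
      have : -2 * (-2 * x) = y := by rw [h]; ring
      rw [this]; exact hy
    exact hb ((hcol _ hx2 h6).symm.trans hcx)
  have key : ∀ a c : F, a ∈ W → c ∈ W → a + c = 2 * x → a = c := by
    intro a c ha hc' hac
    rw [← hWeq] at ha hc'
    simp only [mem_insert, mem_singleton] at ha hc'
    have e1 : 2 * x ≠ x + -2 * x := fun h => mul_ne_zero h3 hx0 (by linear_combination h)
    have e2 : 2 * x ≠ x + y := fun h => hyx (by linear_combination -h)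
    have e3 : 2 * x ≠ x + -2 * y := fun h => hx2y (by linear_combination h)
    have e4 : 2 * x ≠ -2 * x + y := fun h => h4x (by linear_combination -h)
    have e5 : 2 * x ≠ -2 * x + -2 * y := fun h => by
      have h7 : 2 * y = 2 * (-2 * x) := by linear_combination h
      exact hy2x (mul_left_cancel₀ h2 h7)
    have e6 : 2 * x ≠ y + -2 * y := fun h => hy2x (by linear_combination h)
    rcases ha with ha | ha | ha | ha <;> rcases hc' with hc' | hc' | hc' | hc'
    all_goals first
      | exact ha.trans hc'.symm
      | (exfalso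
         rw [ha, hc'] at hac
         first
          | exact e1 (by linear_combination -hac)
          | exact e2 (by linear_combination -hac)
          | exact e3 (by linear_combination -hac)
          | exact e4 (by linear_combination -hac)
          | exact e5 (by linear_combination -hac)
          | exact e6 (by linear_combination -hac))
  exact huu (key u u' hu hu' (by rw [hs]; ring))

end Pool.Agent.STS7eb
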