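import Mathlib

namespace Pool.Agent.MP7eb8d7

/-- In a commutative group, if `u` has even order (or order `0`), there is a two-colouring
which changes its value under multiplication by `u`. -/
theorem exists_color_group {G : Type*} [CommGroup G] (u : G) (h : Even (orderOf u)) :
    ∃ color : G → Bool, ∀ x, color (u * x) = !color x := by
  classical
  have hk : ∀ x : G, ∃ k : ℤ,
      u ^ k = ((QuotientGroup.mk x : G ⧸ Subgroup.zpowers u).out)⁻¹ * x := by
    intro x
    have h1 : (QuotientGroup.mk ((QuotientGroup.mk x : G ⧸ Subgroup.zpowers u).out) :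
        G ⧸ Subgroup.zpowers u) = QuotientGroup.mk x := Quotient.out_eq' _
    have h2 := QuotientGroup.eq.mp h1
    obtain ⟨k, hk⟩ := Subgroup.mem_zpowers_iff.mp h2
    exact ⟨k, hk⟩
  choose k hk using hk
  refine ⟨fun x => decide (Even (k x)), fun x => ?_⟩
  have hmk : (QuotientGroup.mk (u * x) : G ⧸ Subgroup.zpowers u) = QuotientGroup.mk x := by
    rw [QuotientGroup.eq]
    refine Subgroup.mem_zpowers_iff.mpr ⟨-1, ?_⟩
    simp [mul_comm]
  have h1 : u ^ (k (u * x)) = u ^ (k x + 1) := by
    rw [hk (u * x), hmk, zpow_add_one, hk x]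
    simp only [mul_assoc, mul_comm]
  have h2 : u ^ (k (u * x) - (k x + 1)) = 1 := by
    rw [zpow_sub, h1, mul_inv_cancel]
  have h3 : (orderOf u : ℤ) ∣ k (u * x) - (k x + 1) := orderOf_dvd_iff_zpow_eq_one.mpr h2
  have h4 : Even (k (u * x) - (k x + 1)) := by
    obtain ⟨c, hc⟩ := h3
    rw [hc]
    have h5 : Even (orderOf u : ℤ) := by exact_mod_cast h
    exact h5.mul_right c
  have h6 : Even (k (u * x)) ↔ ¬ Even (k x) := by
    rw [Int.even_sub, Int.even_add_one] at h4
    exact h4
  by_cases hx : Even (k x)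
  · have : ¬ Even (k (u * x)) := fun h => h6.mp h hx
    simp [hx, this]
  · have : Even (k (u * x)) := h6.mpr hx
    simp [hx, this]

/-- Colouring of `ZMod p` changing under multiplication by `-2`, if `-2` has even order. -/
theorem exists_color (p : ℕ) [Fact p.Prime] (hp : p ≠ 2) (h : Even (orderOf (-2 : ZMod p))) :
    ∃ color : ZMod p → Bool, ∀ x, x ≠ 0 → color (-2 * x) = !color x := by
  classical
  have h2 : (-2 : ZMod p) ≠ 0 := by
    intro h0
    have h1 : ((2 : ℕ) : ZMod p) = 0 := by
      have : (2 : ZMod p) = 0 := by simpa using h0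
      exact_mod_cast this
    rw [ZMod.natCast_eq_zero_iff] at h1
    have := (Nat.prime_dvd_prime_iff_eq (Fact.out : p.Prime) Nat.prime_two).mp h1
    exact hp this
  obtain ⟨c, hc⟩ := exists_color_group (Units.mk0 (-2 : ZMod p) h2) (by
    rw [← orderOf_units]; simpa using h)
  refine ⟨fun x => if hx : x = 0 then true else c (Units.mk0 x hx), fun x hx => ?_⟩
  have hx2 : (-2 * x : ZMod p) ≠ 0 := mul_ne_zero h2 hx
  show (if hx : -2 * x = 0 then true else c (Units.mk0 (-2 * x) hx)) =
    !(if hx : x = 0 then true else c (Units.mk0 x hx))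
  rw [dif_neg hx, dif_neg hx2, ← hc]
  congr 1
  ext
  simp

/-- If `p = 5` or `7` mod `8` then `-2` has even order mod `p`. -/
theorem even_order_of_mod8 (p : ℕ) [Fact p.Prime] (h : p % 8 = 5 ∨ p % 8 = 7) :
    Even (orderOf (-2 : ZMod p)) := by
  have hp2 : p ≠ 2 := by rintro rfl; omega
  by_contra hodd
  rw [Nat.not_even_iff_odd] at hodd
  have hsq : IsSquare (-2 : ZMod p) := by
    obtain ⟨m, hm⟩ := hodd
    refine ⟨(-2) ^ (m + 1), ?_⟩
    rw [← pow_add]
    have : m + 1 + (m + 1) = orderOf (-2 : ZMod p) + 1 := by omega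
    rw [this, pow_succ, pow_orderOf_eq_one, one_mul]
  have := (ZMod.exists_sq_eq_neg_two_iff hp2).mp hsq
  omega

end Pool.Agent.MP7eb8d7
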