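import Mathlib

/-!
# MP_7eb8d7_co: common definitions for the construction of `STS(p + 2)`
-/

namespace STS7

/-- Sums of two distinct elements of `W`. -/
def dsum {p : ℕ} (W : Finset (ZMod p)) : Finset (ZMod p) :=
  ((W ×ˢ W).filter (fun q => q.1 ≠ q.2)).image (fun q => q.1 + q.2)

/-- The third point on the block through the field point `x ≠ 0` and the infinite point `b`. -/
def g {p : ℕ} [Fact p.Prime] (color : ZMod p → Bool) (b : Bool) (x : ZMod p) : ZMod p :=
  if color x = b then -2 * x else -x / 2

end STS7
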