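import Mathlib

/-!
# The theorem of Dias da Silva and Hamidoune for two summands (Erdos - Heilbronn)

For a set `A` of residues modulo a prime `p` with `2 |A| < p + 4` the sums of two distinct elements
of `A` take at least `2 |A| - 3` values.  Proof by the combinatorial Nullstellensatz.
-/

namespace MP7eb8d7

open Finset MvPolynomial

variable {R : Type} [CommRing R]

/-- the multi-index with entries `a`, `b` -/
noncomputable def idx (a b : ℕ) : Fin 2 →₀ ℕ := Finsupp.single 0 a + Finsupp.single 1 b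

lemma idx_zero (a b : ℕ) : idx a b 0 = a := by simp [idx]

lemma idx_one (a b : ℕ) : idx a b 1 = b := by simp [idx]

lemma idx_degree (a b : ℕ) : (idx a b).degree = a + b := by
  simp [idx, Finsupp.degree_eq_sum, Fin.sum_univ_two]

lemma idx_sub_zero (a b : ℕ) : idx (a + 1) b - Finsupp.single 0 1 = idx a b := by
  ext i; fin_cases i <;> simp [idx]

lemma idx_sub_one (a b : ℕ) : idx a (b + 1) - Finsupp.single 1 1 = idx a b := by
  ext i; fin_cases i <;> simp [idx]

lemma coeff_X0 (f : MvPolynomial (Fin 2) R) (a b : ℕ) :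
    coeff (idx (a + 1) b) (f * X 0) = coeff (idx a b) f := by
  rw [coeff_mul_X', if_pos, idx_sub_zero]
  simp [Finsupp.mem_support_iff, idx_zero]

lemma coeff_X0' (f : MvPolynomial (Fin 2) R) (b : ℕ) :
    coeff (idx 0 b) (f * X 0) = 0 := by
  rw [coeff_mul_X', if_neg]
  simp [Finsupp.mem_support_iff, idx_zero]

lemma coeff_X1 (f : MvPolynomial (Fin 2) R) (a b : ℕ) :
    coeff (idx a (b + 1)) (f * X 1) = coeff (idx a b) f := by
  rw [coeff_mul_X', if_pos, idx_sub_one]
  simp [Finsupp.mem_support_iff, idx_one]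

lemma coeff_X1' (f : MvPolynomial (Fin 2) R) (a : ℕ) :
    coeff (idx a 0) (f * X 1) = 0 := by
  rw [coeff_mul_X', if_neg]
  simp [Finsupp.mem_support_iff, idx_one]

/-- binomial theorem, coefficients -/
lemma coeff_pow (N : ℕ) : ∀ a b : ℕ, a + b = N →
    coeff (idx a b) ((X 0 + X 1 : MvPolynomial (Fin 2) R) ^ N) = (N.choose a : R) := by
  induction N with
  | zero =>
    intro a b h
    obtain ⟨rfl, rfl⟩ : a = 0 ∧ b = 0 := by omega
    simp [idx]
  | succ N ih =>
    intro a b h
    rw [pow_succ, mul_add, coeff_add]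
    rcases a with _ | a
    · rcases b with _ | b
      · omega
      · rw [coeff_X0', coeff_X1, ih 0 b (by omega)]
        simp
    · rcases b with _ | b
      · rw [coeff_X0, coeff_X1', ih a 0 (by omega)]
        have : a = N := by omega
        subst this
        simp
      · rw [coeff_X0, coeff_X1, ih a (b + 1) (by omega), ih (a + 1) b (by omega),
          Nat.choose_succ_succ]
        push_cast
        ring

/-- coefficients of the antisymmetric form -/
lemma coeff_form (N a b : ℕ) (h : a + b + 1 = N) :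
    coeff (idx (a + 1) (b + 1)) ((X 0 - X 1 : MvPolynomial (Fin 2) R) * (X 0 + X 1) ^ N) =
      (N.choose a : R) - (N.choose (a + 1) : R) := by
  rw [sub_mul, coeff_sub, mul_comm (X 0), mul_comm (X 1), coeff_X0, coeff_X1,
    coeff_pow N a (b + 1) (by omega), coeff_pow N (a + 1) b (by omega)]

/-- two polynomials of degree at most `N` have the same coefficients in degree `N` -/
def TopEq (N : ℕ) (f g : MvPolynomial (Fin 2) R) : Prop :=
  f.totalDegree ≤ N ∧ g.totalDegree ≤ N ∧ ∀ a b, a + b = N → coeff (idx a b) f = coeff (idx a b) g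

lemma coeff_high {N a b : ℕ} {f : MvPolynomial (Fin 2) R} (hf : f.totalDegree ≤ N)
    (h : N < a + b) : coeff (idx a b) f = 0 := by
  apply coeff_eq_zero_of_totalDegree_lt
  have h2 : ∑ i ∈ (idx a b).support, (idx a b) i = a + b := idx_degree a b
  omega

lemma totalDegree_X_le (i : Fin 2) : (X i : MvPolynomial (Fin 2) R).totalDegree ≤ 1 := by
  rcases subsingleton_or_nontrivial R with h | h
  · have : (X i : MvPolynomial (Fin 2) R) = 0 := Subsingleton.elim _ _
    rw [this, totalDegree_zero]
    exact Nat.zero_le 1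
  · rw [totalDegree_X]

lemma deg_lin (c : R) : (X 0 + X 1 - C c : MvPolynomial (Fin 2) R).totalDegree ≤ 1 := by
  refine (totalDegree_sub _ _).trans (max_le ((totalDegree_add _ _).trans (max_le ?_ ?_)) ?_)
  · exact (totalDegree_X_le _)
  · exact (totalDegree_X_le _)
  · simp

lemma deg_lin' : (X 0 + X 1 : MvPolynomial (Fin 2) R).totalDegree ≤ 1 :=
  (totalDegree_add _ _).trans (max_le (totalDegree_X_le _) (totalDegree_X_le _))

lemma TopEq.step {N : ℕ} {f g : MvPolynomial (Fin 2) R} (h : TopEq N f g) (c : R) :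
    TopEq (N + 1) (f * (X 0 + X 1 - C c)) (g * (X 0 + X 1)) := by
  obtain ⟨hf, hg, h⟩ := h
  refine ⟨(totalDegree_mul _ _).trans (add_le_add hf (deg_lin c)),
    (totalDegree_mul _ _).trans (add_le_add hg deg_lin'), ?_⟩
  intro a b hab
  have h1 : coeff (idx a b) (f * C c) = 0 := by
    rw [mul_comm, coeff_C_mul, coeff_high hf (by omega), mul_zero]
  rw [mul_sub, coeff_sub, h1, sub_zero, mul_add, mul_add, coeff_add, coeff_add]
  congr 1
  · rcases a with _ | a
    · rw [coeff_X0', coeff_X0']
    · rw [coeff_X0, coeff_X0, h a b (by omega)]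
  · rcases b with _ | b
    · rw [coeff_X1', coeff_X1']
    · rw [coeff_X1, coeff_X1, h a b (by omega)]

lemma TopEq.pow {N : ℕ} {f g : MvPolynomial (Fin 2) R} (h : TopEq N f g) (M : ℕ) :
    TopEq (N + M) (f * (X 0 + X 1) ^ M) (g * (X 0 + X 1) ^ M) := by
  induction M with
  | zero => simpa using h
  | succ M ih =>
    have := ih.step 0
    simpa [pow_succ, mul_assoc, add_assoc] using this

lemma TopEq.prod {N : ℕ} {f g : MvPolynomial (Fin 2) R} (h : TopEq N f g) (s : Finset R) :
    TopEq (N + s.card) (f * ∏ c ∈ s, (X 0 + X 1 - C c)) (g * (X 0 + X 1) ^ s.card) := by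
  classical
  induction s using Finset.induction_on with
  | empty => simpa using h
  | insert c s hc ih =>
    have := ih.step c
    rw [Finset.prod_insert hc, Finset.card_insert_of_notMem hc]
    have e1 : f * ((X 0 + X 1 - C c) * ∏ c ∈ s, (X 0 + X 1 - C c)) =
        f * (∏ c ∈ s, (X 0 + X 1 - C c)) * (X 0 + X 1 - C c) := by ring
    have e2 : g * (X 0 + X 1) ^ (s.card + 1) = g * (X 0 + X 1) ^ s.card * (X 0 + X 1) := by ring
    rw [e1, e2, ← add_assoc]
    exact this

variable {p : ℕ} [Fact p.Prime]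

/-- the sums of two distinct elements of `A` -/
def rsum (A : Finset (ZMod p)) : Finset (ZMod p) := A.offDiag.image fun x => x.1 + x.2

lemma catalan_ne {m : ℕ} (hm : 2 * m < p) :
    (((2 * m).choose m : ℕ) : ZMod p) - (((2 * m).choose (m + 1) : ℕ) : ZMod p) ≠ 0 := by
  intro h
  have h1 : (2 * m).choose (m + 1) * (m + 1) = (2 * m).choose m * (2 * m - m) :=
    Nat.choose_succ_right_eq _ _
  have h2 : 2 * m - m = m := by omega
  rw [h2] at h1
  have h3 : (((2 * m).choose (m + 1) : ℕ) : ZMod p) * (m + 1) = (((2 * m).choose m : ℕ) : ZMod p) * m := by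
    exact_mod_cast congrArg (Nat.cast : ℕ → ZMod p) h1
  have h4 : (((2 * m).choose m : ℕ) : ZMod p) = 0 := by
    linear_combination (m + 1 : ZMod p) * h + h3
  rw [ZMod.natCast_eq_zero_iff] at h4
  have h5 : p ∣ (2 * m).factorial := by
    rw [← Nat.choose_mul_factorial_mul_factorial (show m ≤ 2 * m by omega)]
    exact Dvd.dvd.mul_right (Dvd.dvd.mul_right h4 _) _
  have h6 := (Nat.Prime.dvd_factorial (Fact.out : p.Prime)).1 h5
  omega

/-- Erdos - Heilbronn for `A = B` -/
theorem eh (A : Finset (ZMod p)) (hA : 2 * A.card < p + 4) : 2 * A.card ≤ (rsum A).card + 3 := by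
  classical
  by_contra hcon
  push Not at hcon
  rcases Nat.lt_or_ge A.card 3 with h3 | h3
  · -- at most two elements
    have h2 : A.card = 2 := by omega
    obtain ⟨x, y, hxy, rfl⟩ := Finset.card_eq_two.1 h2
    have : x + y ∈ rsum ({x, y} : Finset (ZMod p)) :=
      Finset.mem_image.2 ⟨(x, y), by simp [Finset.mem_offDiag, hxy], rfl⟩
    have := Finset.card_pos.2 ⟨_, this⟩
    omega
  obtain ⟨x0, hx0⟩ : A.Nonempty := Finset.card_pos.1 (by omega)
  obtain ⟨m, hm⟩ : ∃ m, A.card = m + 2 := ⟨A.card - 2, by omega⟩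
  set S := rsum A with hS
  -- the polynomial
  have hN : S.card ≤ 2 * m := by omega
  set M := 2 * m - S.card with hM
  set f : MvPolynomial (Fin 2) (ZMod p) :=
    (X 0 - X 1) * (X 0 + X 1) ^ M * ∏ c ∈ S, (X 0 + X 1 - C c) with hf
  have hbase : TopEq 1 (X 0 - X 1 : MvPolynomial (Fin 2) (ZMod p)) (X 0 - X 1) := by
    have : (X 0 - X 1 : MvPolynomial (Fin 2) (ZMod p)).totalDegree ≤ 1 :=
      (totalDegree_sub _ _).trans (max_le (totalDegree_X_le _) (totalDegree_X_le _))
    exact ⟨this, this, fun _ _ _ => rfl⟩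
  have htop := (hbase.pow M).prod S
  have hg : (X 0 - X 1 : MvPolynomial (Fin 2) (ZMod p)) * (X 0 + X 1) ^ M * (X 0 + X 1) ^ S.card =
      (X 0 - X 1) * (X 0 + X 1) ^ (2 * m) := by
    rw [mul_assoc, ← pow_add]
    congr 2
    omega
  rw [hg] at htop
  have hdeg : 1 + M + S.card = 2 * m + 1 := by omega
  rw [hdeg] at htop
  obtain ⟨k, rfl⟩ : ∃ k, m = k + 1 := ⟨m - 1, by omega⟩
  have hcoef : coeff (idx (k + 1 + 1) (k + 1)) f ≠ 0 := by
    rw [hf, htop.2.2 _ _ (by omega), coeff_form _ _ _ (by omega)]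
    exact catalan_ne (by omega)
  have htd : f.totalDegree = (idx (k + 1 + 1) (k + 1)).degree := by
    apply le_antisymm
    · rw [idx_degree]
      refine htop.1.trans (by omega)
    · exact le_totalDegree (mem_support_iff.2 hcoef)
  obtain ⟨s, hs, hne⟩ := combinatorial_nullstellensatz_exists_eval_nonzero f
    (idx (k + 1 + 1) (k + 1)) hcoef htd ![A, A.erase x0] (by
      intro i
      fin_cases i
      · show idx (k + 1 + 1) (k + 1) 0 < A.card
        rw [idx_zero]; omega
      · show idx (k + 1 + 1) (k + 1) 1 < (A.erase x0).card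
        rw [idx_one, Finset.card_erase_of_mem hx0]; omega)
  have hs0 : s 0 ∈ A := hs 0
  have hs1 : s 1 ∈ A := Finset.mem_of_mem_erase (hs 1)
  apply hne
  rw [hf]
  simp only [map_mul, map_sub, eval_X, map_prod, map_add, eval_C, map_pow]
  by_cases h01 : s 0 = s 1
  · rw [h01]; ring
  · have hmem : s 0 + s 1 ∈ S := Finset.mem_image.2 ⟨(s 0, s 1), by simp [Finset.mem_offDiag, hs0, hs1, h01], rfl⟩
    rw [Finset.prod_eq_zero hmem (by ring), mul_zero]

end MP7eb8d7
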