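import Mathlib

/-!
# Steiner triple systems from a third point operation
-/

namespace MP7eb8d7

open Finset

/-- `T` is the family of triples of a Steiner triple system on the point set `V`. -/
def IsSTS {V : Type} [DecidableEq V] (T : Finset (Finset V)) : Prop :=
  (∀ t ∈ T, t.card = 3) ∧ ∀ x y : V, x ≠ y → ∃! t : Finset V, t ∈ T ∧ x ∈ t ∧ y ∈ t

/-- The neighbourhood of `W`: the points outside `W` that complete a pair inside `W` to a triple. -/
def nbhd {V : Type} [Fintype V] [DecidableEq V] (T : Finset (Finset V)) (W : Finset V) : Finset V :=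
  univ.filter fun z => z ∉ W ∧ ∃ x ∈ W, ∃ y ∈ W, x ≠ y ∧ ({x, y, z} : Finset V) ∈ T

section general

variable {V : Type} [Fintype V] [DecidableEq V] (m : V → V → V)

/-- the triples `{x, y, m x y}` -/
def triples : Finset (Finset V) := (univ : Finset V).offDiag.image fun x => {x.1, x.2, m x.1 x.2}

lemma mem_triples {x y : V} (h : x ≠ y) : ({x, y, m x y} : Finset V) ∈ triples m :=
  Finset.mem_image.2 ⟨(x, y), by simp [Finset.mem_offDiag, h], rfl⟩

theorem isSTS_triples (h1 : ∀ x y, x ≠ y → m x y ≠ x ∧ m x y ≠ y)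
    (h2 : ∀ x y, x ≠ y → m x y = m y x) (h3 : ∀ x y, x ≠ y → m x (m x y) = y) :
    IsSTS (triples m) := by
  constructor
  · intro t ht
    obtain ⟨⟨x, y⟩, hxy, rfl⟩ := Finset.mem_image.1 ht
    have hne : x ≠ y := by simpa [Finset.mem_offDiag] using hxy
    have := h1 x y hne
    rw [Finset.card_eq_three]
    exact ⟨x, y, m x y, hne, this.1.symm, this.2.symm, rfl⟩
  · intro x y hxy
    refine ⟨{x, y, m x y}, ⟨mem_triples m hxy, by simp, by simp⟩, ?_⟩
    rintro t ⟨ht, hx, hy⟩
    obtain ⟨⟨u, v⟩, huv, rfl⟩ := Finset.mem_image.1 ht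
    have hne : u ≠ v := by simpa [Finset.mem_offDiag] using huv
    have hw := h1 u v hne
    have hvu : m v u = m u v := (h2 u v hne).symm
    have hu3 : m u (m u v) = v := h3 u v hne
    have hv3 : m v (m u v) = u := by rw [← hvu]; exact h3 v u hne.symm
    simp only [Finset.mem_insert, Finset.mem_singleton] at hx hy
    rcases hx with rfl | rfl | rfl <;> rcases hy with rfl | rfl | rfl
    · exact absurd rfl hxy
    · rfl
    · rw [hu3]; ext z; simp only [Finset.mem_insert, Finset.mem_singleton]; tauto
    · rw [hvu]; ext z; simp only [Finset.mem_insert, Finset.mem_singleton]; tauto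
    · exact absurd rfl hxy
    · rw [hv3]; ext z; simp only [Finset.mem_insert, Finset.mem_singleton]; tauto
    · rw [h2 _ _ hxy, hu3]; ext z; simp only [Finset.mem_insert, Finset.mem_singleton]; tauto
    · rw [h2 _ _ hxy, hv3]; ext z; simp only [Finset.mem_insert, Finset.mem_singleton]; tauto
    · exact absurd rfl hxy

end general

end MP7eb8d7
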