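import Mathlib
import Pool.Agent.Lib.MP_7eb8d7_co.EH
import Pool.Agent.Lib.MP_7eb8d7_co.STS

/-!
# The Schreiber - Wilson system on `p + 2` points
-/

namespace MP7eb8d7

open Finset

variable {p : ℕ} [Fact p.Prime]

/-- is `x` a nonzero square -/
def sq (x : ZMod p) : Bool := decide (quadraticChar (ZMod p) x = 1)

/-- the third point of the triple through two points -/
def third : ZMod p ⊕ Bool → ZMod p ⊕ Bool → ZMod p ⊕ Bool
  | Sum.inl x, Sum.inl y => if y = -2 * x then Sum.inr (sq x) else if x = -2 * y then Sum.inr (sq y)
      else Sum.inl (-(x + y))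
  | Sum.inl x, Sum.inr c => if x = 0 then Sum.inr (!c) else if c = sq x then Sum.inl (-2 * x)
      else Sum.inl (x * (-2)⁻¹)
  | Sum.inr c, Sum.inl x => if x = 0 then Sum.inr (!c) else if c = sq x then Sum.inl (-2 * x)
      else Sum.inl (x * (-2)⁻¹)
  | Sum.inr _, Sum.inr _ => Sum.inl 0

section facts

variable (hchi : quadraticChar (ZMod p) (-2) = -1)

include hchi

lemma two_ne : (-2 : ZMod p) ≠ 0 := by
  intro h
  rw [h] at hchi
  simp at hchi

lemma cancel_a (x : ZMod p) : -2 * (x * (-2)⁻¹) = x := by
  rw [mul_comm x, ← mul_assoc, mul_inv_cancel₀ (two_ne hchi), one_mul]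

lemma cancel_b (x : ZMod p) : (-2 * x) * (-2)⁻¹ = x := by
  rw [mul_comm, ← mul_assoc, inv_mul_cancel₀ (two_ne hchi), one_mul]

lemma sq_neg_two {x : ZMod p} (hx : x ≠ 0) : sq (-2 * x) = !(sq x) := by
  have h1 : quadraticChar (ZMod p) (-2 * x) = - quadraticChar (ZMod p) x := by
    rw [map_mul, hchi]; ring
  unfold sq
  rcases quadraticChar_dichotomy hx with h | h
  · rw [h1, h]; decide
  · rw [h1, h]; decide

lemma sq_inv {x : ZMod p} (hx : x ≠ 0) : sq (x * (-2)⁻¹) = !(sq x) := by
  have h2 := two_ne hchi
  have h0 : x * (-2)⁻¹ ≠ 0 := mul_ne_zero hx (inv_ne_zero h2)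
  have := sq_neg_two hchi h0
  rw [cancel_a hchi] at this
  rw [this, Bool.not_not]

variable (h3 : (3 : ZMod p) ≠ 0)

include h3

lemma third_ne (u v : ZMod p ⊕ Bool) (huv : u ≠ v) : third u v ≠ u ∧ third u v ≠ v := by
  have h2 := two_ne hchi
  rcases u with x | c <;> rcases v with y | d
  · have hxy : x ≠ y := fun h => huv (by rw [h])
    simp only [third]
    split_ifs with a b
    · simp
    · simp
    · constructor
      · intro h
        apply a
        have h' := Sum.inl.inj h
        linear_combination (-1 : ZMod p) * h'
      · intro h
        apply b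
        have h' := Sum.inl.inj h
        linear_combination (-1 : ZMod p) * h'
  · simp only [third]
    split_ifs with a b
    · simp
    · refine ⟨fun h => a ?_, by simp⟩
      have h' := Sum.inl.inj h
      have : (3 : ZMod p) * x = 0 := by linear_combination (-1 : ZMod p) * h'
      exact (mul_eq_zero.1 this).resolve_left h3
    · refine ⟨fun h => a ?_, by simp⟩
      have h' := Sum.inl.inj h
      have e := cancel_a hchi x
      have : (3 : ZMod p) * x = 0 := by linear_combination (-1 : ZMod p) * e - 2 * h'
      exact (mul_eq_zero.1 this).resolve_left h3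
  · simp only [third]
    split_ifs with a b
    · simp
    · refine ⟨by simp, fun h => a ?_⟩
      have h' := Sum.inl.inj h
      have : (3 : ZMod p) * y = 0 := by linear_combination (-1 : ZMod p) * h'
      exact (mul_eq_zero.1 this).resolve_left h3
    · refine ⟨by simp, fun h => a ?_⟩
      have h' := Sum.inl.inj h
      have e := cancel_a hchi y
      have : (3 : ZMod p) * y = 0 := by linear_combination (-1 : ZMod p) * e - 2 * h'
      exact (mul_eq_zero.1 this).resolve_left h3
  · simp [third]

omit hchi in
lemma third_comm (u v : ZMod p ⊕ Bool) (huv : u ≠ v) : third u v = third v u := by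
  rcases u with x | c <;> rcases v with y | d
  · have hxy : x ≠ y := fun h => huv (by rw [h])
    simp only [third]
    by_cases a : y = -2 * x
    · by_cases b : x = -2 * y
      · exfalso
        have : (3 : ZMod p) * x = 0 := by linear_combination (-1 : ZMod p) * b + 2 * a
        have hx := (mul_eq_zero.1 this).resolve_left h3
        apply hxy
        rw [a, hx, mul_zero]
      · rw [if_pos a, if_neg b, if_pos a]
    · by_cases b : x = -2 * y
      · rw [if_neg a, if_pos b, if_pos b]
      · rw [if_neg a, if_neg b, if_neg b, if_neg a, add_comm]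
  · rfl
  · rfl
  · rfl

lemma third_third (u v : ZMod p ⊕ Bool) (huv : u ≠ v) : third u (third u v) = v := by
  have h2 := two_ne hchi
  have e : ∀ x : ZMod p, -2 * (x * (-2)⁻¹) = x := cancel_a hchi
  have e' : ∀ x : ZMod p, (-2 * x) * (-2)⁻¹ = x := cancel_b hchi
  rcases u with x | c <;> rcases v with y | d
  · have hxy : x ≠ y := fun h => huv (by rw [h])
    by_cases a : y = -2 * x
    · have hx : x ≠ 0 := by rintro rfl; apply hxy; rw [a, mul_zero]
      simp only [third]
      rw [if_pos a]
      simp only
      rw [if_neg hx, if_pos trivial, a]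
    · by_cases b : x = -2 * y
      · have hy : y ≠ 0 := by rintro rfl; apply hxy; rw [b, mul_zero]
        have hx : x ≠ 0 := by rw [b]; exact mul_ne_zero h2 hy
        simp only [third]
        rw [if_neg a, if_pos b]
        simp only
        have hs : sq x = !(sq y) := by rw [b]; exact sq_neg_two hchi hy
        rw [if_neg hx, if_neg (by rw [hs]; cases sq y <;> simp)]
        congr 1
        rw [b, e']
      · simp only [third]
        rw [if_neg a, if_neg b]
        simp only
        rw [if_neg (fun h => hxy (by linear_combination h)), if_neg (fun h => b (by linear_combination (-1 : ZMod p) * h))]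
        congr 1
        ring
  · by_cases hx : x = 0
    · subst hx
      simp [third]
    · by_cases a : d = sq x
      · simp only [third]
        rw [if_neg hx, if_pos a]
        simp only
        rw [if_pos trivial, a]
      · simp only [third]
        rw [if_neg hx, if_neg a]
        simp only
        have hne : x * (-2)⁻¹ ≠ -2 * x := by
          intro h
          apply hx
          have : (3 : ZMod p) * x = 0 := by linear_combination e x + 2 * h
          exact (mul_eq_zero.1 this).resolve_left h3
        rw [if_neg hne, if_pos (e x).symm, sq_inv hchi hx]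
        congr 1
        revert a
        cases d <;> cases sq x <;> simp
  · by_cases hx : y = 0
    · subst hx
      simp [third]
    · by_cases a : c = sq y
      · simp only [third]
        rw [if_neg hx, if_pos a]
        simp only
        rw [if_neg (mul_ne_zero h2 hx), if_neg (by rw [a, sq_neg_two hchi hx]; cases sq y <;> simp), e']
      · simp only [third]
        rw [if_neg hx, if_neg a]
        simp only
        have hs := sq_inv hchi hx
        rw [if_neg (mul_ne_zero hx (inv_ne_zero h2)), if_pos (by rw [hs]; revert a; cases c <;> cases sq y <;> simp), e]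
  · simp only [third]
    simp only [if_true]
    congr 1
    have : c ≠ d := fun h => huv (by rw [h])
    revert this
    cases c <;> cases d <;> simp

theorem isSTS_SW : IsSTS (triples (third (p := p))) :=
  isSTS_triples third (third_ne hchi h3) (third_comm h3) (third_third hchi h3)

end facts

end MP7eb8d7
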