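import Mathlib
import Pool.Agent.Lib.MP_7eb8d7_co.SW

/-!
# Expansion of the Schreiber - Wilson Steiner triple systems of order `p + 2`
-/

namespace MP7eb8d7

open Finset

open scoped Pointwise

variable {p : ℕ} [Fact p.Prime]

/-- the elements of `ZMod p` in a point set -/
def fin (W : Finset (ZMod p ⊕ Bool)) : Finset (ZMod p) := W.toLeft

omit [Fact p.Prime] in
lemma mem_fin {W : Finset (ZMod p ⊕ Bool)} {x : ZMod p} : x ∈ fin W ↔ Sum.inl x ∈ W := by
  simp [fin]

omit [Fact p.Prime] in
lemma card_eq (W : Finset (ZMod p ⊕ Bool)) : W.card = (fin W).card + W.toRight.card := by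
  rw [fin, card_toLeft_add_card_toRight]

/-- a sum of two distinct elements of `W` gives a point of `W` or a neighbour -/
lemma nbhd_of_rsum (W : Finset (ZMod p ⊕ Bool)) {z : ZMod p} (hz : z ∉ fin W)
    (h : -z ∈ rsum (fin W)) : Sum.inl z ∈ nbhd (triples third) W := by
  obtain ⟨⟨x, y⟩, hxy, hs⟩ := Finset.mem_image.1 h
  rw [Finset.mem_offDiag] at hxy
  simp only at hs hxy
  obtain ⟨hx, hy, hne⟩ := hxy
  have hzx : z ≠ x := fun e => hz (e ▸ hx)
  have hzy : z ≠ y := fun e => hz (e ▸ hy)
  have hthird : third (Sum.inl x) (Sum.inl y) = (Sum.inl z : ZMod p ⊕ Bool) := by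
    simp only [third]
    rw [if_neg, if_neg]
    · congr 1
      linear_combination (-1 : ZMod p) * hs
    · intro e
      apply hzy
      linear_combination hs - e
    · intro e
      apply hzx
      linear_combination hs - e
  refine Finset.mem_filter.2 ⟨Finset.mem_univ _, fun h' => hz (mem_fin.2 h'), Sum.inl x, mem_fin.1 hx,
    Sum.inl y, mem_fin.1 hy, fun e => hne (Sum.inl.inj e), ?_⟩
  rw [← hthird]
  exact mem_triples third (fun e => hne (Sum.inl.inj e))

/-- `-2 x` is a neighbour of `W` if `x ∈ W` and both extra points are in `W` -/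
lemma nbhd_of_double (W : Finset (ZMod p ⊕ Bool)) (hW : ∀ c, Sum.inr c ∈ W) {z x : ZMod p}
    (hz : z ∉ fin W) (hx : x ∈ fin W) (h : z = -2 * x) : Sum.inl z ∈ nbhd (triples third) W := by
  have hx0 : x ≠ 0 := by
    rintro rfl
    apply hz
    rw [h, mul_zero]
    exact hx
  have hthird : third (Sum.inl x) (Sum.inr (sq x)) = (Sum.inl z : ZMod p ⊕ Bool) := by
    simp only [third]
    rw [if_neg hx0, if_pos trivial, h]
  refine Finset.mem_filter.2 ⟨Finset.mem_univ _, fun h' => hz (mem_fin.2 h'), Sum.inl x, mem_fin.1 hx,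
    Sum.inr (sq x), hW _, by simp, ?_⟩
  rw [← hthird]
  exact mem_triples third (by simp)

lemma card_neg_sdiff (A S : Finset (ZMod p)) : S.card ≤ ((S.image fun c => -c) \ A).card + A.card := by
  have h1 : (S.image fun c => -c).card = S.card := Finset.card_image_of_injective _ neg_injective
  have h2 := Finset.card_le_card (s := S.image fun c => -c) (t := ((S.image fun c => -c) \ A) ∪ A) (by
    intro x hx
    by_cases h : x ∈ A
    · exact Finset.mem_union_right _ h
    · exact Finset.mem_union_left _ (Finset.mem_sdiff.2 ⟨hx, h⟩))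
  have h3 := Finset.card_union_le ((S.image fun c => -c) \ A) A
  omega

/-- the neighbours of the form `inl z` -/
lemma card_inl_le (W : Finset (ZMod p ⊕ Bool)) (Z : Finset (ZMod p))
    (h : ∀ z ∈ Z, Sum.inl z ∈ nbhd (triples third) W) :
    Z.card + (nbhd (triples third) W).toRight.card ≤ (nbhd (triples third) W).card := by
  rw [card_eq (nbhd (triples third) W)]
  have : Z.card ≤ (fin (nbhd (triples third) W)).card :=
    Finset.card_le_card fun z hz => mem_fin.2 (h z hz)
  omega

/-- the expansion by sums of two distinct elements -/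
lemma expand_rsum (W : Finset (ZMod p ⊕ Bool)) (hW : 2 * (fin W).card < p + 4) :
    (fin W).card + (nbhd (triples third) W).toRight.card ≤ (nbhd (triples third) W).card + 3 := by
  have h1 := eh (fin W) hW
  have h2 := card_neg_sdiff (fin W) (rsum (fin W))
  have h3 := card_inl_le W (((rsum (fin W)).image fun c => -c) \ fin W) (by
    intro z hz
    rw [Finset.mem_sdiff] at hz
    obtain ⟨c, hc, e⟩ := Finset.mem_image.1 hz.1
    refine nbhd_of_rsum W hz.2 ?_
    rw [← e, neg_neg]
    exact hc)
  omega

/-- the expansion by all sums -/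
lemma expand_sum (W : Finset (ZMod p ⊕ Bool)) (hall : ∀ c, Sum.inr c ∈ W) (hne : (fin W).Nonempty)
    (hW : 2 * (fin W).card ≤ p + 1) :
    (fin W).card ≤ (nbhd (triples third) W).card + 1 := by
  have h1 := ZMod.cauchy_davenport (Fact.out : p.Prime) hne hne
  have h0 : 1 ≤ (fin W).card := Finset.card_pos.2 hne
  have h1' : 2 * (fin W).card - 1 ≤ (fin W + fin W).card := by
    rcases min_le_iff.1 h1 with h | h <;> omega
  have h2 := card_neg_sdiff (fin W) (fin W + fin W)
  have h3 := card_inl_le W (((fin W + fin W).image fun c => -c) \ fin W) (by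
    intro z hz
    rw [Finset.mem_sdiff] at hz
    obtain ⟨c, hc, e⟩ := Finset.mem_image.1 hz.1
    obtain ⟨x, hx, y, hy, rfl⟩ := Finset.mem_add.1 hc
    by_cases hxy : x = y
    · subst hxy
      exact nbhd_of_double W hall hz.2 hx (by rw [← e]; ring)
    · refine nbhd_of_rsum W hz.2 ?_
      rw [← e, neg_neg]
      exact Finset.mem_image.2 ⟨(x, y), by simp [Finset.mem_offDiag, hx, hy, hxy], rfl⟩)
  omega

end MP7eb8d7
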