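import Mathlib

/-! Restricted sumsets: coefficient identities on grids, and the Erdos-Heilbronn bound. -/

namespace StsKar

open Finset Polynomial

/-- The coefficient of `a ^ s * b ^ (M + 1 - s)` in `(a - b) * (a + b) ^ M`. -/
def cf (M s : ℕ) : ℤ :=
  (if s = 0 then 0 else (M.choose (s - 1) : ℤ)) - (M.choose s : ℤ)

/-- The bilinear sum of a sequence of moments `H` and coefficients `ph`. -/
def S {F : Type*} [Field F] (N : ℕ) (H ph : ℕ → F) (i j : ℕ) : F :=
  ∑ l ∈ range (N + 1), ∑ s ∈ range (N - l + 2),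
    ph l * (cf (N - l) s : F) * (H (i + s) * H (j + (N - l + 1 - s)))

/-- The moments of a finite set. -/
noncomputable def Hs {F : Type*} [Field F] [DecidableEq F] (A : Finset F) (n : ℕ) : F :=
  ∑ a ∈ A, a ^ n / ∏ b ∈ A.erase a, (a - b)

/-- The restricted sumset. -/
def rs {F : Type*} [Add F] [DecidableEq F] (A : Finset F) : Finset F :=
  ((A ×ˢ A).filter (fun q => q.1 ≠ q.2)).image (fun q => q.1 + q.2)

theorem mem_rs {F : Type*} [Add F] [DecidableEq F] {A : Finset F} {z : F} :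
    z ∈ rs A ↔ ∃ x ∈ A, ∃ y ∈ A, x ≠ y ∧ x + y = z := by
  unfold rs
  simp only [mem_image, mem_filter, mem_product, Prod.exists]
  constructor
  · rintro ⟨a, b, ⟨⟨ha, hb⟩, hab⟩, h⟩
    exact ⟨a, ha, b, hb, hab, h⟩
  · rintro ⟨a, ha, b, hb, hab, h⟩
    exact ⟨a, b, ⟨⟨ha, hb⟩, hab⟩, h⟩

variable {F : Type*} [Field F] [DecidableEq F]

theorem Hs_lt {A : Finset F} {n : ℕ} (h : n + 1 < #A) : Hs A n = 0 := by
  have hinj : Set.InjOn (fun a : F => a) (A : Set F) := fun x _ y _ h => h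
  have hdeg : ((X : F[X]) ^ n).degree < #A := by
    rw [degree_X_pow]; exact_mod_cast (by omega)
  have := Lagrange.coeff_eq_sum (s := A) (v := fun a : F => a) hinj hdeg
  simp only [eval_pow, eval_X, coeff_X_pow] at this
  unfold Hs
  rw [← this, if_neg (by omega)]

theorem Hs_eq {A : Finset F} {n : ℕ} (h : n + 1 = #A) : Hs A n = 1 := by
  have hinj : Set.InjOn (fun a : F => a) (A : Set F) := fun x _ y _ h => h
  have hdeg : ((X : F[X]) ^ n).degree < #A := by
    rw [degree_X_pow]; exact_mod_cast (by omega)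
  have := Lagrange.coeff_eq_sum (s := A) (v := fun a : F => a) hinj hdeg
  simp only [eval_pow, eval_X, coeff_X_pow] at this
  unfold Hs
  rw [← this, if_pos (by omega)]

theorem expand_cf (M : ℕ) (a b : F) :
    (a - b) * (a + b) ^ M = ∑ s ∈ range (M + 2), (cf M s : F) * (a ^ s * b ^ (M + 1 - s)) := by
  have h1 : a * (a + b) ^ M = ∑ s ∈ range (M + 2),
      ((if s = 0 then 0 else (M.choose (s - 1) : ℤ) : ℤ) : F) * (a ^ s * b ^ (M + 1 - s)) := by
    rw [sum_range_succ' _ (M + 1)]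
    simp only [if_true, Int.cast_zero, zero_mul, add_zero]
    rw [add_pow, mul_sum]
    apply sum_congr rfl
    intro s hs
    rw [mem_range] at hs
    rw [if_neg (by omega)]
    have : M + 1 - (s + 1) = M - s := by omega
    rw [this]
    simp only [add_tsub_cancel_right, Int.cast_natCast]
    ring
  have h2 : b * (a + b) ^ M = ∑ s ∈ range (M + 2),
      ((M.choose s : ℤ) : F) * (a ^ s * b ^ (M + 1 - s)) := by
    rw [sum_range_succ _ (M + 1)]
    rw [Nat.choose_eq_zero_of_lt (by omega : M < M + 1)]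
    simp only [Nat.cast_zero, Int.cast_zero, zero_mul, add_zero]
    rw [add_pow, mul_sum]
    apply sum_congr rfl
    intro s hs
    rw [mem_range] at hs
    have : M + 1 - s = (M - s) + 1 := by omega
    rw [this, pow_succ]
    simp only [Int.cast_natCast]
    ring
  rw [sub_mul, h1, h2, ← sum_sub_distrib]
  apply sum_congr rfl
  intro s _
  unfold cf
  rw [Int.cast_sub]
  ring

theorem eval_coeff_sum (P : F[X]) (N : ℕ) (hP : P.natDegree ≤ N) (x : F) :
    P.eval x = ∑ l ∈ range (N + 1), P.coeff (N - l) * x ^ (N - l) := by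
  rw [eval_eq_sum_range' (lt_of_le_of_lt hP (Nat.lt_succ_self N)) x]
  rw [← sum_range_reflect]
  apply sum_congr rfl
  intro l hl
  rfl

theorem swap3 {ι : Type*} (s : Finset ι) (A : Finset F) (f : ι → F → F → F) :
    ∑ i ∈ s, ∑ a ∈ A, ∑ b ∈ A, f i a b = ∑ a ∈ A, ∑ b ∈ A, ∑ i ∈ s, f i a b := by
  rw [sum_comm]
  apply sum_congr rfl
  intro a _
  rw [sum_comm]

theorem S_zero (A : Finset F) (P : F[X]) (N : ℕ) (hP : P.natDegree ≤ N)
    (hv : ∀ a ∈ A, ∀ b ∈ A, a ≠ b → P.eval (a + b) = 0) (i j : ℕ) :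
    S N (Hs A) (fun l => P.coeff (N - l)) i j = 0 := by
  have key : ∑ a ∈ A, ∑ b ∈ A, (a ^ i / ∏ c ∈ A.erase a, (a - c)) *
      (b ^ j / ∏ c ∈ A.erase b, (b - c)) * ((a - b) * P.eval (a + b)) = 0 := by
    apply sum_eq_zero
    intro a ha
    apply sum_eq_zero
    intro b hb
    by_cases hab : a = b
    · rw [hab]; ring
    · rw [hv a ha b hb hab]; ring
  rw [← key]
  have e1 : S N (Hs A) (fun l => P.coeff (N - l)) i j = ∑ l ∈ range (N + 1),
      ∑ s ∈ range (N - l + 2), ∑ a ∈ A, ∑ b ∈ A, P.coeff (N - l) * (cf (N - l) s : F) *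
      ((a ^ (i + s) / ∏ c ∈ A.erase a, (a - c)) *
        (b ^ (j + (N - l + 1 - s)) / ∏ c ∈ A.erase b, (b - c))) := by
    unfold S Hs
    apply sum_congr rfl
    intro l _
    apply sum_congr rfl
    intro s _
    rw [sum_mul_sum, mul_sum]
    apply sum_congr rfl
    intro a _
    rw [mul_sum]
  rw [e1]
  have e2 : ∀ l ∈ range (N + 1), (∑ s ∈ range (N - l + 2), ∑ a ∈ A, ∑ b ∈ A,
      P.coeff (N - l) * (cf (N - l) s : F) * ((a ^ (i + s) / ∏ c ∈ A.erase a, (a - c)) *
        (b ^ (j + (N - l + 1 - s)) / ∏ c ∈ A.erase b, (b - c)))) =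
      ∑ a ∈ A, ∑ b ∈ A, ∑ s ∈ range (N - l + 2), P.coeff (N - l) * (cf (N - l) s : F) *
      ((a ^ (i + s) / ∏ c ∈ A.erase a, (a - c)) *
        (b ^ (j + (N - l + 1 - s)) / ∏ c ∈ A.erase b, (b - c))) := by
    intro l _
    rw [swap3]
  rw [sum_congr rfl e2, swap3]
  apply sum_congr rfl
  intro a _
  apply sum_congr rfl
  intro b _
  rw [eval_coeff_sum P N hP, mul_sum, mul_sum]
  apply sum_congr rfl
  intro l _
  have e3 : (a - b) * (P.coeff (N - l) * (a + b) ^ (N - l)) =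
      P.coeff (N - l) * ((a - b) * (a + b) ^ (N - l)) := by ring
  rw [e3, expand_cf, mul_sum, mul_sum]
  apply sum_congr rfl
  intro s _
  rw [pow_add, pow_add]
  ring

end StsKar
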