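import Pool.Agent.Lib.MP_7eb8d7_co.Kar0

namespace StsKar

open Finset Polynomial

theorem sum_ite2 {F : Type*} [Field F] (N : ℕ) (g : ℕ → ℕ → F) (l0 s0 : ℕ) (hl : l0 < N + 1)
    (hs : s0 < N - l0 + 2) (c : F) :
    ∑ l ∈ range (N + 1), ∑ s ∈ range (N - l + 2), g l s * (if l = l0 ∧ s = s0 then c else 0)
      = g l0 s0 * c := by
  rw [sum_eq_single l0]
  · rw [sum_eq_single s0]
    · simp
    · intro s _ hne
      simp [hne]
    · intro h
      exact absurd (mem_range.2 hs) h
  · intro l _ hne
    apply sum_eq_zero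
    intro s _
    simp [hne]
  · intro h
    exact absurd (mem_range.2 hl) h

theorem S_diff {F : Type*} [Field F] (k r i j N : ℕ) (hN : N = 2 * k - 3) (hk : 5 ≤ k)
    (hr1 : 1 ≤ r) (hrk : r ≤ k) (hij : i + j = r) (hi : i ≤ k - 1) (hj : j ≤ k - 1)
    (H H' ph ph' : ℕ → F) (h0 : ∀ n, n < k - 1 → H n = 0) (h1 : H (k - 1) = 1)
    (h0' : ∀ n, n < k - 1 → H' n = 0) (h1' : H' (k - 1) = 1)
    (hlow : ∀ t, t < r → H (k - 1 + t) = H' (k - 1 + t) ∧ ph t = ph' t)
    (hph : ph 0 = 1) :
    S N H ph i j - S N H' ph' i j =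
      (cf N (k - 1 + r - i) : F) * (H (k - 1 + r) - H' (k - 1 + r)) +
      (cf N (k - 1 - i) : F) * (H (k - 1 + r) - H' (k - 1 + r)) +
      (cf (N - r) (k - 1 - i) : F) * (ph r - ph' r) := by
  have heq : ∀ n, n < k - 1 + r → H n = H' n := by
    intro n hn
    by_cases hlt : n < k - 1
    · rw [h0 n hlt, h0' n hlt]
    · have := (hlow (n - (k - 1)) (by omega)).1
      have e : k - 1 + (n - (k - 1)) = n := by omega
      rwa [e] at this
  have hph' : ph' 0 = 1 := by rw [← (hlow 0 (by omega)).2]; exact hph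
  have term : ∀ l ∈ range (N + 1), ∀ s ∈ range (N - l + 2),
      ph l * (cf (N - l) s : F) * (H (i + s) * H (j + (N - l + 1 - s))) -
      ph' l * (cf (N - l) s : F) * (H' (i + s) * H' (j + (N - l + 1 - s))) =
      (cf (N - l) s : F) * (if l = 0 ∧ s = k - 1 + r - i then (H (k - 1 + r) - H' (k - 1 + r)) else 0) +
      (cf (N - l) s : F) * (if l = 0 ∧ s = k - 1 - i then (H (k - 1 + r) - H' (k - 1 + r)) else 0) +
      (cf (N - l) s : F) * (if l = r ∧ s = k - 1 - i then (ph r - ph' r) else 0) := by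
    intro l hl s hs
    rw [mem_range] at hl hs
    by_cases ha : i + s < k - 1
    · rw [h0 _ ha, h0' _ ha, if_neg (by omega), if_neg (by omega), if_neg (by omega)]
      ring
    by_cases hb : j + (N - l + 1 - s) < k - 1
    · rw [h0 _ hb, h0' _ hb, if_neg (by omega), if_neg (by omega), if_neg (by omega)]
      ring
    have hlr : l ≤ r := by omega
    by_cases hl0 : l = 0
    · subst hl0
      by_cases hs1 : s = k - 1 + r - i
      · have e1 : i + s = k - 1 + r := by omega
        have e2 : j + (N - 0 + 1 - s) = k - 1 := by omega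
        rw [e1, e2, h1, h1', hph, hph', if_pos ⟨rfl, hs1⟩, if_neg (by omega), if_neg (by omega)]
        ring
      by_cases hs2 : s = k - 1 - i
      · have e1 : i + s = k - 1 := by omega
        have e2 : j + (N - 0 + 1 - s) = k - 1 + r := by omega
        rw [e1, e2, h1, h1', hph, hph', if_neg (by omega), if_pos ⟨rfl, hs2⟩, if_neg (by omega)]
        ring
      · rw [heq (i + s) (by omega), heq (j + (N - 0 + 1 - s)) (by omega), hph, hph',
          if_neg (by omega), if_neg (by omega), if_neg (by omega)]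
        ring
    · by_cases hlr2 : l = r
      · have e1 : i + s = k - 1 := by omega
        have e2 : j + (N - l + 1 - s) = k - 1 := by omega
        rw [e1, e2, h1, h1', if_neg (by omega), if_neg (by omega), if_pos ⟨hlr2, by omega⟩, hlr2]
        ring
      · rw [heq (i + s) (by omega), heq (j + (N - l + 1 - s)) (by omega),
          (hlow l (by omega)).2, if_neg (by omega), if_neg (by omega), if_neg (by omega)]
        ring
  unfold S
  rw [← sum_sub_distrib]
  have e3 : ∀ l ∈ range (N + 1), (∑ s ∈ range (N - l + 2),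
      ph l * (cf (N - l) s : F) * (H (i + s) * H (j + (N - l + 1 - s)))) -
      (∑ s ∈ range (N - l + 2),
      ph' l * (cf (N - l) s : F) * (H' (i + s) * H' (j + (N - l + 1 - s)))) =
      (∑ s ∈ range (N - l + 2), (cf (N - l) s : F) *
        (if l = 0 ∧ s = k - 1 + r - i then (H (k - 1 + r) - H' (k - 1 + r)) else 0)) +
      (∑ s ∈ range (N - l + 2), (cf (N - l) s : F) *
        (if l = 0 ∧ s = k - 1 - i then (H (k - 1 + r) - H' (k - 1 + r)) else 0)) +
      (∑ s ∈ range (N - l + 2), (cf (N - l) s : F) *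
        (if l = r ∧ s = k - 1 - i then (ph r - ph' r) else 0)) := by
    intro l hl
    rw [← sum_sub_distrib, ← sum_add_distrib, ← sum_add_distrib]
    exact sum_congr rfl (term l hl)
  rw [sum_congr rfl e3, sum_add_distrib, sum_add_distrib,
    sum_ite2 N (fun l s => (cf (N - l) s : F)) 0 (k - 1 + r - i) (by omega) (by omega),
    sum_ite2 N (fun l s => (cf (N - l) s : F)) 0 (k - 1 - i) (by omega) (by omega),
    sum_ite2 N (fun l s => (cf (N - l) s : F)) r (k - 1 - i) (by omega) (by omega)]
  simp only [Nat.sub_zero]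

end StsKar
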