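import Pool.Agent.Lib.MP_7eb8d7_co.Kar1

namespace StsKar

open Finset Polynomial

theorem cf_mul (M s : ℕ) : ((M : ℤ) + 1) * cf M s = (2 * (s : ℤ) - (M + 1)) * ((M + 1).choose s : ℤ) := by
  unfold cf
  rcases s with _ | t
  · simp
  · simp only [Nat.add_eq_zero_iff, one_ne_zero, and_false, if_false, add_tsub_cancel_right]
    have h1 : ((M : ℤ) + 1) * (M.choose t : ℤ) = ((M + 1).choose (t + 1) : ℤ) * (t + 1) := by
      exact_mod_cast Nat.add_one_mul_choose_eq M t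
    have h2 : ((M + 1).choose (t + 1) : ℤ) = (M.choose t : ℤ) + (M.choose (t + 1) : ℤ) := by
      exact_mod_cast Nat.choose_succ_succ M t
    push_cast
    linear_combination 2 * h1 + ((M : ℤ) + 1) * h2

theorem natne {F : Type*} [Field F] (p : ℕ) [CharP F p] (n : ℕ) (h0 : 0 < n) (hn : n < p) :
    (n : F) ≠ 0 := by
  intro h
  rw [CharP.cast_eq_zero_iff F p] at h
  exact absurd (Nat.le_of_dvd h0 h) (by omega)

theorem choosene {F : Type*} [Field F] (p : ℕ) [hp : Fact p.Prime] [CharP F p] (n m : ℕ)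
    (hm : m ≤ n) (hn : n < p) : ((n.choose m : ℕ) : F) ≠ 0 := by
  intro h
  rw [CharP.cast_eq_zero_iff F p] at h
  have h2 : p ∣ n.factorial := h.trans ⟨m.factorial * (n - m).factorial, by
    rw [← mul_assoc, Nat.choose_mul_factorial_mul_factorial hm]⟩
  exact absurd ((Nat.Prime.dvd_factorial hp.out).1 h2) (by omega)

/-- the basic equation -/
theorem eqn {F : Type*} [Field F] (p : ℕ) [Fact p.Prime] [CharP F p]
    (k r i : ℕ) (hk : 5 ≤ k) (hp : 2 * k < p)
    (hr1 : 1 ≤ r) (hrk : r ≤ k) (hir : i ≤ r) (hi : i ≤ k - 1) (hj : r - i ≤ k - 1)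
    (H H' ph ph' : ℕ → F) (h0 : ∀ n, n < k - 1 → H n = 0) (h1 : H (k - 1) = 1)
    (h0' : ∀ n, n < k - 1 → H' n = 0) (h1' : H' (k - 1) = 1)
    (hS : ∀ i j, S (2 * k - 3) H ph i j = 0) (hS' : ∀ i j, S (2 * k - 3) H' ph' i j = 0)
    (hlow : ∀ t, t < r → H (k - 1 + t) = H' (k - 1 + t) ∧ ph t = ph' t)
    (hph : ph 0 = 1) :
    (2 * (k : F) - 2 - r) * (((r : F) - i) * ((2 * k - 2).choose (k - 1 + (r - i)) : ℕ)
      - i * ((2 * k - 2).choose (k - 1 + i) : ℕ)) * (H (k - 1 + r) - H' (k - 1 + r)) +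
    ((k : F) - 1) * ((r : F) - 2 * i) * ((2 * k - 2 - r).choose (k - 1 - i) : ℕ) *
      (ph r - ph' r) = 0 := by
  have hd := S_diff k r i (r - i) (2 * k - 3) rfl hk hr1 hrk (by omega) hi hj H H' ph ph'
    h0 h1 h0' h1' hlow hph
  rw [hS, hS', sub_zero] at hd
  have a1 := cf_mul (2 * k - 3) (k - 1 + r - i)
  have a2 := cf_mul (2 * k - 3) (k - 1 - i)
  have a3 := cf_mul (2 * k - 3 - r) (k - 1 - i)
  have e1 : 2 * k - 3 + 1 = 2 * k - 2 := by omega
  have e2 : 2 * k - 3 - r + 1 = 2 * k - 2 - r := by omega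
  have e3 : k - 1 + r - i = k - 1 + (r - i) := by omega
  rw [e1] at a1 a2
  rw [e2] at a3
  rw [e3] at a1 hd
  have sy : (2 * k - 2).choose (k - 1 - i) = (2 * k - 2).choose (k - 1 + i) := by
    rw [← Nat.choose_symm (by omega : k - 1 + i ≤ 2 * k - 2)]
    congr 1
    omega
  rw [sy] at a2
  have b1 : ((2 * k - 3 : ℕ) : ℤ) = 2 * k - 3 := by omega
  have b2 : ((2 * k - 3 - r : ℕ) : ℤ) = 2 * k - 3 - r := by omega
  have b3 : ((k - 1 + (r - i) : ℕ) : ℤ) = k - 1 + (r - i) := by omega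
  have b4 : ((k - 1 - i : ℕ) : ℤ) = k - 1 - i := by omega
  rw [b1, b3] at a1
  rw [b1, b4] at a2
  rw [b2, b4] at a3
  have c1 := congrArg (fun z : ℤ => (z : F)) a1
  have c2 := congrArg (fun z : ℤ => (z : F)) a2
  have c3 := congrArg (fun z : ℤ => (z : F)) a3
  push_cast at c1 c2 c3
  have two : (2 : F) ≠ 0 := by
    have := natne (F := F) p 2 (by omega) (by omega)
    exact_mod_cast this
  apply mul_left_cancel₀ two
  rw [mul_zero]
  linear_combination (-(2 * (k : F) - 2) * (2 * (k : F) - 2 - r)) * hd -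
    (2 * (k : F) - 2 - r) * (H (k - 1 + r) - H' (k - 1 + r)) * c1 -
    (2 * (k : F) - 2 - r) * (H (k - 1 + r) - H' (k - 1 + r)) * c2 -
    (2 * (k : F) - 2) * (ph r - ph' r) * c3

theorem ratio {F : Type*} [Field F] (n m : ℕ) (hm : m ≤ n) :
    ((n.choose (m + 1) : ℕ) : F) * ((m : F) + 1) = ((n.choose m : ℕ) : F) * ((n : F) - m) := by
  have := Nat.choose_succ_right_eq n m
  have h2 : ((n - m : ℕ) : F) = (n : F) - m := by rw [Nat.cast_sub hm]
  rw [← h2]
  have h3 := congrArg (fun z : ℕ => (z : F)) this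
  simp only [Nat.cast_mul, Nat.cast_add, Nat.cast_one] at h3
  exact h3

end StsKar
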