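import Pool.Agent.Lib.MP_7eb8d7_co.Kar3

namespace StsKar

open Finset Polynomial

theorem S_scale {F : Type*} [Field F] (k N : ℕ) (hN : N = 2 * k - 3) (hk : 2 ≤ k) (H ph : ℕ → F)
    (h0 : ∀ n, n < k - 1 → H n = 0) (d : F) (i j : ℕ) :
    S N (fun n => if n < k - 1 then 0 else d ^ (n - (k - 1)) * H n) (fun l => d ^ l * ph l) i j =
      d ^ (i + j) * S N H ph i j := by
  unfold S
  rw [mul_sum]
  apply sum_congr rfl
  intro l hl
  rw [mul_sum]
  apply sum_congr rfl
  intro s hs
  rw [mem_range] at hl hs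
  simp only []
  by_cases ha : i + s < k - 1
  · rw [if_pos ha, h0 _ ha]
    ring
  by_cases hb : j + (N - l + 1 - s) < k - 1
  · rw [if_pos hb, h0 _ hb]
    ring
  rw [if_neg ha, if_neg hb]
  have e : i + j = l + (i + s - (k - 1)) + (j + (N - l + 1 - s) - (k - 1)) := by omega
  rw [e, pow_add, pow_add]
  ring

theorem S_trivial {F : Type*} [Field F] (k : ℕ) (hk : 2 ≤ k) (i j : ℕ) :
    S (2 * k - 3) (fun n => if n = k - 1 then (1 : F) else 0)
      (fun l => if l = 0 then (1 : F) else 0) i j = 0 := by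
  unfold S
  apply sum_eq_zero
  intro l hl
  apply sum_eq_zero
  intro s hs
  rw [mem_range] at hl hs
  simp only []
  by_cases hl0 : l = 0
  · subst hl0
    by_cases ha : i + s = k - 1
    · by_cases hb : j + (2 * k - 3 - 0 + 1 - s) = k - 1
      · have hs1 : s = k - 1 := by omega
        have hc : cf (2 * k - 3) (k - 1) = 0 := by
          unfold cf
          rw [if_neg (by omega)]
          have : (2 * k - 3).choose (k - 1) = (2 * k - 3).choose (k - 1 - 1) := by
            rw [← Nat.choose_symm (by omega : k - 1 ≤ 2 * k - 3)]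
            congr 1
            omega
          rw [this, sub_self]
        rw [hs1, Nat.sub_zero, hc]
        simp
      · rw [if_neg hb]
        ring
    · rw [if_neg ha]
      ring
  · rw [if_neg hl0]
    ring

theorem ph_zero {F : Type*} [Field F] (P : F[X]) (N : ℕ) (hP : P.Monic) (hN : P.natDegree = N) :
    P.coeff (N - 0) = 1 := by
  rw [Nat.sub_zero, ← hN]
  exact hP

/-- a monic polynomial of degree exactly `N` which vanishes on a given small set -/
theorem exists_monic {F : Type*} [Field F] [DecidableEq F] (D : Finset F) (N : ℕ) (h : #D ≤ N) :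
    ∃ P : F[X], P.Monic ∧ P.natDegree = N ∧ ∀ x ∈ D, P.eval x = 0 := by
  refine ⟨(∏ a ∈ D, (X - C a)) * X ^ (N - #D), ?_, ?_, ?_⟩
  · exact (monic_prod_of_monic _ _ fun a _ => monic_X_sub_C a).mul (monic_X_pow _)
  · rw [(monic_prod_of_monic _ _ fun a _ => monic_X_sub_C a).natDegree_mul (monic_X_pow _),
      natDegree_prod_of_monic _ _ fun a _ => monic_X_sub_C a]
    simp
    omega
  · intro x hx
    rw [eval_mul, eval_prod, prod_eq_zero hx (by simp), zero_mul]

/-- the system attached to a finite set with a small restricted sumset -/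
theorem set_system {F : Type*} [Field F] [DecidableEq F] (A : Finset F) (k : ℕ) (hA : #A = k)
    (hk : 2 ≤ k) (hD : #(rs A) ≤ 2 * k - 3) :
    ∃ ph : ℕ → F, ph 0 = 1 ∧ ∀ i j, S (2 * k - 3) (Hs A) ph i j = 0 := by
  obtain ⟨P, hm, hd, hz⟩ := exists_monic (rs A) (2 * k - 3) hD
  refine ⟨fun l => P.coeff (2 * k - 3 - l), ph_zero P _ hm hd, fun i j => ?_⟩
  apply S_zero A P (2 * k - 3) hd.le
  intro a ha b hb hab
  exact hz _ (mem_rs.2 ⟨a, ha, b, hb, hab, rfl⟩)

/-- Erdos-Heilbronn (Dias da Silva-Hamidoune) for one set. -/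
theorem eh (p : ℕ) [Fact p.Prime] (W : Finset (ZMod p)) (hW : 2 ≤ #W) (hp : 2 * #W - 3 ≤ p) :
    2 * #W - 3 ≤ #(rs W) := by
  by_contra hlt
  obtain ⟨k, hk⟩ : ∃ k, #W = k := ⟨_, rfl⟩
  rw [hk] at hW hp hlt
  have hk3 : 3 ≤ k := by
    by_contra h
    have hk2 : k = 2 := by omega
    subst hk2
    have : #(rs W) = 0 := by omega
    rw [card_eq_zero] at this
    obtain ⟨x, y, hxy, hWe⟩ := card_eq_two.1 hk
    have : x + y ∈ rs W := mem_rs.2 ⟨x, by simp [hWe], y, by simp [hWe], hxy, rfl⟩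
    simp_all
  obtain ⟨P, hm, hd, hz⟩ := exists_monic (rs W) (2 * k - 4) (by omega)
  have hS := S_zero W P (2 * k - 4) hd.le (fun a ha b hb hab =>
    hz _ (mem_rs.2 ⟨a, ha, b, hb, hab, rfl⟩)) 1 0
  have h0 : ∀ n, n < k - 1 → Hs W n = 0 := fun n hn => Hs_lt (by omega)
  have h1 : Hs W (k - 1) = 1 := Hs_eq (by omega)
  have hval : S (2 * k - 4) (Hs W) (fun l => P.coeff (2 * k - 4 - l)) 1 0 =
      (cf (2 * k - 4) (k - 2) : ZMod p) * 1 := by
    have hs2 := sum_ite2 (2 * k - 4) (fun l s => (cf (2 * k - 4 - l) s : ZMod p)) 0 (k - 2)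
      (by omega) (by omega) 1
    rw [Nat.sub_zero] at hs2
    rw [← hs2]
    unfold S
    apply sum_congr rfl
    intro l hl
    apply sum_congr rfl
    intro s hs
    rw [mem_range] at hl hs
    simp only []
    by_cases ha : 1 + s < k - 1
    · rw [h0 _ ha, if_neg (by omega)]
      ring
    by_cases hb : 0 + (2 * k - 4 - l + 1 - s) < k - 1
    · rw [h0 _ hb, if_neg (by omega)]
      ring
    have hl0 : l = 0 := by omega
    have hs0 : s = k - 2 := by omega
    subst hl0
    subst hs0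
    have e1 : 1 + (k - 2) = k - 1 := by omega
    have e2 : 0 + (2 * k - 4 - 0 + 1 - (k - 2)) = k - 1 := by omega
    rw [e1, e2, h1, ph_zero P _ hm hd, if_pos ⟨rfl, rfl⟩]
    ring
  rw [hS] at hval
  have hc : ((k - 2 : ℕ) : ℤ) * cf (2 * k - 4) (k - 2) = -((2 * k - 4).choose (k - 3) : ℤ) := by
    have h := Nat.choose_succ_right_eq (2 * k - 4) (k - 3)
    have e1 : k - 3 + 1 = k - 2 := by omega
    have e2 : 2 * k - 4 - (k - 3) = (k - 2) + 1 := by omega
    rw [e1, e2] at h
    have h' : (((2 * k - 4).choose (k - 2) : ℕ) : ℤ) * ((k - 2 : ℕ) : ℤ) =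
        (((2 * k - 4).choose (k - 3) : ℕ) : ℤ) * (((k - 2 : ℕ) : ℤ) + 1) := by exact_mod_cast h
    unfold cf
    rw [if_neg (by omega)]
    have e3 : k - 2 - 1 = k - 3 := by omega
    rw [e3]
    linear_combination -h'
  have hc2 := congrArg (fun z : ℤ => (z : ZMod p)) hc
  simp only [Int.cast_mul, Int.cast_neg, Int.cast_natCast] at hc2
  have hval2 : (cf (2 * k - 4) (k - 2) : ZMod p) = 0 := by rw [mul_one] at hval; exact hval.symm
  rw [hval2, mul_zero] at hc2
  have hne : (((2 * k - 4).choose (k - 3) : ℕ) : ZMod p) ≠ 0 :=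
    choosene p _ _ (by omega) (by omega)
  exact hne (neg_eq_zero.1 hc2.symm)

end StsKar
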