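import Pool.Agent.Lib.MP_7eb8d7_co.Defs
import Pool.Agent.Lib.MP_7eb8d7_co.Cases34

/-!
# MP_7eb8d7_co: the remaining cases with three or four elements
-/

set_option autoImplicit false

open Finset

namespace STS7

/-- the case of three or four elements -/
theorem rem34 {p : ℕ} [Fact p.Prime] (hp : 3 < p) (color : ZMod p → Bool)
    (hc : ∀ x : ZMod p, x ≠ 0 → color (-2 * x) = !color x) (b : Bool) (W : Finset (ZMod p))
    (h : #W = 3 ∨ #W = 4) (hD : #(dsum W) ≤ 2 * #W - 3) (h0 : (0 : ZMod p) ∉ W)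
    (hWD : ∀ x ∈ W, -x ∈ dsum W) (hcol : ∀ x ∈ W, -2 * x ∈ W → color x = b) :
    ∃ v ∈ W, g color b v ∉ W ∧ -(g color b v) ∉ dsum W := by
  have hne : ∀ n : ℕ, 0 < n → n < p → (n : ZMod p) ≠ 0 := by
    intro n h1 h2 h3
    have := (ZMod.natCast_eq_zero_iff n p).1 h3
    exact absurd (Nat.le_of_dvd h1 this) (by omega)
  have h2 : (2 : ZMod p) ≠ 0 := by exact_mod_cast hne 2 (by norm_num) (by omega)
  have h3 : (3 : ZMod p) ≠ 0 := by exact_mod_cast hne 3 (by norm_num) (by omega)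
  exact Pool.Agent.STS7eb.case34 h2 h3 color hc b W h hD h0 hWD hcol

end STS7
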