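import Pool.Agent.Lib.MP_7eb8d7_co.Sts
import Pool.Agent.Lib.MP_7eb8d7_co.Rem34
import Pool.Agent.Lib.MP_7eb8d7_co.CaseAP76
import Pool.Agent.Lib.MP_7eb8d7_co.Kar4
import Pool.Agent.Lib.MP_7eb8d7_co.Ap
import Pool.Agent.Lib.MP_7eb8d7_co.Color

/-!
# MP_7eb8d7_co: Steiner triple systems on `p + 2` points with property (E)
-/

open Finset

namespace STS7

/-- The remaining sets. -/
theorem rem {p : ℕ} [Fact p.Prime] (hp : 3 < p) (color : ZMod p → Bool)
    (hc : ∀ x : ZMod p, x ≠ 0 → color (-2 * x) = !color x) (b : Bool) (W : Finset (ZMod p))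
    (hw : 3 ≤ #W) (hwp : 2 * #W < p) (hD : #(dsum W) ≤ 2 * #W - 3) (h0 : 0 ∉ W)
    (hsub : ∀ x ∈ W, -x ∈ dsum W) (hcol : ∀ x ∈ W, -2 * x ∈ W → color x = b) :
    ∃ v ∈ W, g color b v ∉ W ∧ -(g color b v) ∉ dsum W := by
  by_cases h5 : 5 ≤ #W
  · obtain ⟨a, d, hd, hW⟩ := StsKar.kar p W h5 hwp hD
    exact (caseAP76 hp color hc b W #W h5 hwp a d hd hW h0 hsub hcol).elim
  · exact rem34 hp color hc b W (by omega) hD h0 hsub hcol

/-- For every prime `p > 3` such that `-2` has even multiplicative order modulo `p` there is a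
Steiner triple system on `p + 2` points with property (E). -/
theorem main {p : ℕ} [Fact p.Prime] (hp : 3 < p) (h : Even (orderOf (-2 : ZMod p))) :
    ∃ S : Finset (Finset (Fin (p + 2))), IsSTS S ∧ PropE S := by
  obtain ⟨color, hc⟩ := Pool.Agent.MP7eb8d7.exists_color p (by omega) h
  exact exists_sts hp color hc (fun W h2 h3 => StsKar.eh p W h2 h3)
    (fun b W h3 hwp hD h0 hsub hcol => rem hp color hc b W h3 hwp hD h0 hsub hcol)

end STS7
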