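import Pool.Agent.Lib.MP_7eb8d7_co.Defs

/-!
# MP_7eb8d7_co: Steiner triple systems on `p + 2` points, counting part

The Schreiber-Wilson type construction on `ZMod p ⊕ Bool`, and property (E) deduced from the
restricted sumset bound (`EH`) and the statement about the remaining sets (`REM`).
-/

open Finset
open scoped Pointwise

set_option linter.unusedSectionVars false

namespace STS7

/-- `S` is the set of triples of a Steiner triple system on the point set `V`. -/
def IsSTS {V : Type*} [DecidableEq V] (S : Finset (Finset V)) : Prop :=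
  (∀ t ∈ S, t.card = 3) ∧ ∀ x y : V, x ≠ y → ∃! t, t ∈ S ∧ x ∈ t ∧ y ∈ t

/-- `N(A)`: the points outside `A` which complete some pair inside `A` to a triple. -/
def nbhd {V : Type*} [Fintype V] [DecidableEq V] (S : Finset (Finset V)) (A : Finset V) :
    Finset V :=
  univ.filter (fun z => z ∉ A ∧ ∃ x ∈ A, ∃ y ∈ A, x ≠ y ∧ ({x, y, z} : Finset V) ∈ S)

/-- Property (E): `|N(A)| ≥ |A| - 3` for every `A` with `|A| ≤ |V| / 2`. -/
def PropE {V : Type*} [Fintype V] [DecidableEq V] (S : Finset (Finset V)) : Prop :=
  ∀ A : Finset V, 2 * A.card ≤ Fintype.card V → A.card ≤ (nbhd S A).card + 3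

section general

variable {V : Type*} [Fintype V] [DecidableEq V] (f : V → V → V)

/-- The triples `{x, y, f x y}`, `x ≠ y`. -/
def blocks : Finset (Finset V) :=
  (univ.filter (fun q : V × V => q.1 ≠ q.2)).image (fun q => ({q.1, q.2, f q.1 q.2} : Finset V))

variable {f}

lemma mem_blocks {x y : V} (h : x ≠ y) : ({x, y, f x y} : Finset V) ∈ blocks f :=
  mem_image.2 ⟨(x, y), by simp [h], rfl⟩

variable (h1 : ∀ x, f x x = x) (h2 : ∀ x y, f x y = f y x) (h3 : ∀ x y, f x (f x y) = y)

include h1 h3 in
lemma f_ne_left {x y : V} (h : x ≠ y) : f x y ≠ x := by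
  intro e
  have := h3 x y
  rw [e, h1] at this
  exact h this

include h1 h2 h3 in
lemma f_ne_right {x y : V} (h : x ≠ y) : f x y ≠ y := by
  rw [h2]
  exact f_ne_left h1 h3 h.symm

include h2 h3 in
lemma f_cancel (x y : V) : f y (f x y) = x := by
  rw [h2 x y]; exact h3 y x

include h1 h2 h3 in
lemma block_eq {u v x y : V} (hxy : x ≠ y)
    (hx : x ∈ ({u, v, f u v} : Finset V)) (hy : y ∈ ({u, v, f u v} : Finset V)) :
    ({x, y, f x y} : Finset V) = {u, v, f u v} := by
  have e1 := h3 u v
  have e2 := f_cancel h2 h3 u v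
  have e3 : f (f u v) u = v := by rw [h2]; exact e1
  have e4 : f (f u v) v = u := by rw [h2]; exact e2
  have e5 : f v u = f u v := h2 v u
  simp only [mem_insert, mem_singleton] at hx hy
  rcases hx with rfl | rfl | rfl <;> rcases hy with rfl | rfl | rfl
  · exact absurd rfl hxy
  · rfl
  · rw [e1]; ext z; simp only [mem_insert, mem_singleton]; tauto
  · rw [e5]; ext z; simp only [mem_insert, mem_singleton]; tauto
  · exact absurd rfl hxy
  · rw [e2]; ext z; simp only [mem_insert, mem_singleton]; tauto
  · rw [e3]; ext z; simp only [mem_insert, mem_singleton]; tauto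
  · rw [e4]; ext z; simp only [mem_insert, mem_singleton]; tauto
  · exact absurd rfl hxy

include h1 h2 h3 in
theorem isSTS_blocks : IsSTS (blocks f) := by
  refine ⟨?_, ?_⟩
  · intro t ht
    obtain ⟨⟨x, y⟩, hq, rfl⟩ := mem_image.1 ht
    have hxy : x ≠ y := by simpa using hq
    have a := f_ne_left h1 h3 hxy
    have b := f_ne_right h1 h2 h3 hxy
    exact card_eq_three.2 ⟨x, y, f x y, hxy, a.symm, b.symm, rfl⟩
  · intro x y hxy
    refine ⟨{x, y, f x y}, ⟨mem_blocks hxy, by simp, by simp⟩, ?_⟩
    rintro t ⟨ht, hx, hy⟩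
    obtain ⟨⟨u, v⟩, hq, rfl⟩ := mem_image.1 ht
    exact (block_eq h1 h2 h3 hxy hx hy).symm

lemma mem_nbhd_of {A : Finset V} {x y : V} (hx : x ∈ A) (hy : y ∈ A) (hxy : x ≠ y)
    (hz : f x y ∉ A) : f x y ∈ nbhd (blocks f) A := by
  simp only [nbhd, mem_filter, mem_univ, true_and]
  exact ⟨hz, x, hx, y, hy, hxy, mem_blocks hxy⟩

end general

section construction

variable {p : ℕ} [Fact p.Prime]

/-- The third point on the block through two points of `ZMod p ⊕ Bool`. -/
def op (color : ZMod p → Bool) : ZMod p ⊕ Bool → ZMod p ⊕ Bool → ZMod p ⊕ Bool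
  | .inl x, .inl y =>
      if x = y then .inl x else if y = -2 * x then .inr (color x)
      else if x = -2 * y then .inr (color y) else .inl (-(x + y))
  | .inl x, .inr b => if x = 0 then .inr (!b) else .inl (g color b x)
  | .inr b, .inl x => if x = 0 then .inr (!b) else .inl (g color b x)
  | .inr b, .inr b' => if b = b' then .inr b else .inl 0

variable (hp : 3 < p) (color : ZMod p → Bool)
  (hc : ∀ x : ZMod p, x ≠ 0 → color (-2 * x) = !color x)

include hp in
lemma two_ne : (2 : ZMod p) ≠ 0 := by
  have : ((2 : ℕ) : ZMod p) ≠ 0 := by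
    rw [Ne, ZMod.natCast_eq_zero_iff]
    intro h
    have := Nat.le_of_dvd (by norm_num) h
    omega
  exact_mod_cast this

include hp in
lemma three_ne : (3 : ZMod p) ≠ 0 := by
  have : ((3 : ℕ) : ZMod p) ≠ 0 := by
    rw [Ne, ZMod.natCast_eq_zero_iff]
    intro h
    have := Nat.le_of_dvd (by norm_num) h
    omega
  exact_mod_cast this

include hp in
lemma ne_neg_two {x : ZMod p} (hx : x ≠ 0) : x ≠ -2 * x := by
  intro h
  have : (3 : ZMod p) * x = 0 := by linear_combination h
  rcases mul_eq_zero.1 this with h | h
  · exact three_ne hp h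
  · exact hx h

include hp hc in
lemma color_half {x : ZMod p} (hx : x ≠ 0) : color (-x / 2) = !color x := by
  have h2 := two_ne (p := p) hp
  have hy : (-x / 2 : ZMod p) ≠ 0 := div_ne_zero (neg_ne_zero.2 hx) h2
  have := hc _ hy
  have e : (-2 * (-x / 2) : ZMod p) = x := by field_simp
  rw [e] at this
  rw [this]; simp

include hp in
lemma g_ne_zero (b : Bool) {x : ZMod p} (hx : x ≠ 0) : g color b x ≠ 0 := by
  have h2 := two_ne (p := p) hp
  unfold g
  split_ifs
  · exact mul_ne_zero (neg_ne_zero.2 h2) hx
  · exact div_ne_zero (neg_ne_zero.2 hx) h2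

include hp hc in
lemma g_g (b : Bool) {x : ZMod p} (hx : x ≠ 0) : g color b (g color b x) = x := by
  have h2 := two_ne (p := p) hp
  by_cases h : color x = b
  · have e1 : g color b x = -2 * x := by simp [g, h]
    have e2 : color (-2 * x) ≠ b := by rw [hc x hx, h]; cases b <;> simp
    rw [e1, g, if_neg e2]
    field_simp
  · have e1 : g color b x = -x / 2 := by simp [g, h]
    have e2 : color (-x / 2) = b := by
      rw [color_half hp color hc hx]
      revert h; cases color x <;> cases b <;> simp
    rw [e1, g, if_pos e2]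
    field_simp

include hp in
lemma g_ne_self (b : Bool) {x : ZMod p} (hx : x ≠ 0) : g color b x ≠ x := by
  have h2 := two_ne (p := p) hp
  unfold g
  split_ifs
  · exact (ne_neg_two hp hx).symm
  · intro h
    apply ne_neg_two hp hx
    rw [div_eq_iff h2] at h
    linear_combination (-1 : ZMod p) * h

lemma op_self (u : ZMod p ⊕ Bool) : op color u u = u := by
  rcases u with x | b <;> simp [op]

include hp in
lemma op_r1 {x : ZMod p} (hx : x ≠ 0) :
    op color (.inl x) (.inl (-2 * x)) = .inr (color x) := by
  have h := ne_neg_two hp hx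
  simp only [op, if_neg h, if_true]

include hp in
lemma op_r2 {y : ZMod p} (hy : y ≠ 0) :
    op color (.inl (-2 * y)) (.inl y) = .inr (color y) := by
  have h := ne_neg_two hp hy
  have h2 : y ≠ -2 * (-2 * y) := by
    intro e
    have : (3 : ZMod p) * y = 0 := by linear_combination -e
    rcases mul_eq_zero.1 this with h | h
    · exact three_ne hp h
    · exact hy h
  simp only [op, if_neg h.symm, if_neg h2, if_true]

lemma op_gen {x y : ZMod p} (h : x ≠ y) (h1 : y ≠ -2 * x) (h2 : x ≠ -2 * y) :
    op color (.inl x) (.inl y) = .inl (-(x + y)) := by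
  simp only [op, if_neg h, if_neg h1, if_neg h2]

lemma op_lr {x : ZMod p} (hx : x ≠ 0) (b : Bool) :
    op color (.inl x) (.inr b) = .inl (g color b x) := by
  simp only [op, if_neg hx]

lemma op_rl {x : ZMod p} (hx : x ≠ 0) (b : Bool) :
    op color (.inr b) (.inl x) = .inl (g color b x) := by
  simp only [op, if_neg hx]

include hp in
lemma op_comm (u v : ZMod p ⊕ Bool) : op color u v = op color v u := by
  rcases u with x | b <;> rcases v with y | b'
  · by_cases hxy : x = y
    · subst hxy; rfl
    · by_cases h1 : y = -2 * x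
      · have hx : x ≠ 0 := by rintro rfl; apply hxy; rw [h1]; simp
        subst h1
        rw [op_r1 hp color hx, op_r2 hp color hx]
      · by_cases h2 : x = -2 * y
        · have hy : y ≠ 0 := by rintro rfl; apply hxy; rw [h2]; simp
          subst h2
          rw [op_r1 hp color hy, op_r2 hp color hy]
        · rw [op_gen color hxy h1 h2, op_gen color (Ne.symm hxy) h2 h1, add_comm]
  · simp [op]
  · simp [op]
  · by_cases h : b = b'
    · subst h; rfl
    · simp [op, h, Ne.symm h]

include hp hc in
lemma op_op (u v : ZMod p ⊕ Bool) : op color u (op color u v) = v := by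
  rcases u with x | b <;> rcases v with y | b'
  · by_cases hxy : x = y
    · subst hxy; rw [op_self, op_self]
    · by_cases h1 : y = -2 * x
      · have hx : x ≠ 0 := by rintro rfl; apply hxy; rw [h1]; simp
        subst h1
        rw [op_r1 hp color hx, op_lr color hx]
        simp [g]
      · by_cases h2 : x = -2 * y
        · have hy : y ≠ 0 := by rintro rfl; apply hxy; rw [h2]; simp
          have h20 := two_ne (p := p) hp
          subst h2
          have hne : (-2 * y : ZMod p) ≠ 0 := mul_ne_zero (neg_ne_zero.2 h20) hy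
          rw [op_r2 hp color hy, op_lr color hne]
          have : color (-2 * y) ≠ color y := by rw [hc y hy]; cases color y <;> simp
          rw [g, if_neg this]
          congr 1
          field_simp
        · rw [op_gen color hxy h1 h2, op_gen color]
          · congr 1; ring
          · intro e; apply h1; linear_combination e
          · intro e; apply hxy; linear_combination e
          · intro e; apply h2; linear_combination -e
  · by_cases hx : x = 0
    · subst hx; simp [op]
    · rw [op_lr color hx]
      by_cases h : color x = b'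
      · have : g color b' x = -2 * x := by simp [g, h]
        rw [this, op_r1 hp color hx, h]
      · have e : g color b' x = -x / 2 := by simp [g, h]
        have h20 := two_ne (p := p) hp
        have hy : (-x / 2 : ZMod p) ≠ 0 := div_ne_zero (neg_ne_zero.2 hx) h20
        have e2 : (x : ZMod p) = -2 * (-x / 2) := by field_simp
        have := op_r2 hp color hy
        rw [← e2] at this
        rw [e, this, color_half hp color hc hx]
        revert h; cases color x <;> cases b' <;> simp
  · by_cases hy : y = 0
    · subst hy; simp [op]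
    · rw [op_rl color hy, op_rl color (g_ne_zero hp color b hy), g_g hp color hc b hy]
  · by_cases h : b = b'
    · subst h; rw [op_self, op_self]
    · have : b' = !b := by revert h; cases b <;> cases b' <;> simp
      subst this
      simp [op]

/-- The triple system on `ZMod p ⊕ Bool`. -/
def sys : Finset (Finset (ZMod p ⊕ Bool)) := blocks (op color)

include hp hc in
theorem isSTS_sys : IsSTS (sys color) :=
  isSTS_blocks (op_self color) (op_comm hp color) (op_op hp color hc)

/-! ### Points of the neighbourhood -/

variable (A : Finset (ZMod p ⊕ Bool))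

lemma neg_dsum_sub : (dsum A.toLeft).image (fun t => -t) \ A.toLeft ⊆ (nbhd (sys color) A).toLeft := by
  intro z hz
  rw [mem_sdiff, mem_image] at hz
  obtain ⟨⟨t, ht, rfl⟩, hz⟩ := hz
  rw [dsum, mem_image] at ht
  obtain ⟨⟨x, y⟩, hq, rfl⟩ := ht
  simp only [mem_filter, mem_product, mem_toLeft] at hq
  obtain ⟨⟨hx, hy⟩, hxy⟩ := hq
  have h1 : y ≠ -2 * x := by
    rintro e
    apply hz
    rw [e, mem_toLeft]
    have : (-(x + -2 * x) : ZMod p) = x := by ring
    rw [this]; exact hx
  have h2 : x ≠ -2 * y := by
    rintro e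
    apply hz
    rw [e, mem_toLeft]
    have : (-(-2 * y + y) : ZMod p) = y := by ring
    rw [this]; exact hy
  rw [mem_toLeft] at hz ⊢
  have e := op_gen color hxy h1 h2
  have hne : (Sum.inl x : ZMod p ⊕ Bool) ≠ Sum.inl y := by simpa using hxy
  have := mem_nbhd_of (f := op color) hx hy hne (by rw [e]; exact hz)
  rw [e] at this
  exact this

include hp hc in
lemma g_mem_nbhd {v : ZMod p} {b : Bool} (hv : Sum.inl v ∈ A) (hb : Sum.inr b ∈ A) (hv0 : v ≠ 0)
    (hg : Sum.inl (g color b v) ∉ A) : g color b v ∈ (nbhd (sys color) A).toLeft := by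
  rw [mem_toLeft]
  have e := op_lr color hv0 b
  have := mem_nbhd_of (f := op color) hv hb (by simp) (by rw [e]; exact hg)
  rw [e] at this
  exact this

lemma card_inter_ge (s t : Finset (ZMod p)) : t.card ≤ (t \ s).card + s.card := by
  have := card_le_card_sdiff_add_card (s := t) (t := s)
  omega

lemma card_neg_image (s : Finset (ZMod p)) : (s.image (fun t => -t)).card = s.card :=
  card_image_of_injective _ neg_injective

lemma nbhd_card : (nbhd (sys color) A).card =
    (nbhd (sys color) A).toLeft.card + (nbhd (sys color) A).toRight.card :=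
  card_toLeft_add_card_toRight.symm

include hp hc in
lemma neg_sum_sub (hall : ∀ b : Bool, Sum.inr b ∈ A) :
    (A.toLeft + A.toLeft).image (fun t => -t) \ A.toLeft ⊆ (nbhd (sys color) A).toLeft := by
  intro z hz
  rw [mem_sdiff, mem_image] at hz
  obtain ⟨⟨t, ht, rfl⟩, hz⟩ := hz
  obtain ⟨x, hx, y, hy, rfl⟩ := mem_add.1 ht
  by_cases hxy : x = y
  · subst hxy
    have hx0 : x ≠ 0 := by
      rintro rfl
      apply hz
      simpa using hx
    have e : (-(x + x) : ZMod p) = g color (color x) x := by
      simp [g]; ring
    rw [e] at hz ⊢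
    exact g_mem_nbhd hp color hc A (mem_toLeft.1 hx) (hall _) hx0 (fun h => hz (mem_toLeft.2 h))
  · apply neg_dsum_sub color A
    rw [mem_sdiff, mem_image]
    refine ⟨⟨x + y, ?_, rfl⟩, hz⟩
    rw [dsum, mem_image]
    exact ⟨(x, y), by simp only [mem_filter, mem_product]; exact ⟨⟨hx, hy⟩, hxy⟩, rfl⟩

include hp hc in
/-- Property (E) for the system on `ZMod p ⊕ Bool`, from the restricted sumset bound and the
statement about the remaining sets. -/
theorem propE_sys
    (hEH : ∀ W : Finset (ZMod p), 2 ≤ #W → 2 * #W - 3 ≤ p → 2 * #W - 3 ≤ #(dsum W))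
    (hREM : ∀ (b : Bool) (W : Finset (ZMod p)), 3 ≤ #W → 2 * #W < p → #(dsum W) ≤ 2 * #W - 3 →
      0 ∉ W → (∀ x ∈ W, -x ∈ dsum W) → (∀ x ∈ W, -2 * x ∈ W → color x = b) →
      ∃ v ∈ W, g color b v ∉ W ∧ -(g color b v) ∉ dsum W) :
    PropE (sys color) := by
  intro A hA
  have hprime : p.Prime := Fact.out
  have hodd : p % 2 = 1 := by
    rcases hprime.eq_two_or_odd with h | h
    · omega
    · exact h
  have hcard : Fintype.card (ZMod p ⊕ Bool) = p + 2 := by simp [ZMod.card]
  rw [hcard] at hA
  have hAc : A.toLeft.card + A.toRight.card = A.card := card_toLeft_add_card_toRight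
  have hN := nbhd_card color A
  have hB : A.toRight.card ≤ 2 := by
    simpa using card_le_univ A.toRight
  have hE := card_le_card (neg_dsum_sub color A)
  have hneg := card_neg_image (dsum A.toLeft)
  have hdiff := card_inter_ge A.toLeft ((dsum A.toLeft).image (fun t => -t))
  have hB3 : A.toRight.card = 0 ∨ A.toRight.card = 1 ∨ A.toRight.card = 2 := by omega
  rcases hB3 with h0 | h1 | h2
  · by_cases hw : #A.toLeft ≤ 3
    · omega
    · have := hEH A.toLeft (by omega) (by omega)
      omega
  · obtain ⟨b, hb⟩ := card_eq_one.1 h1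
    have hbA : Sum.inr b ∈ A := mem_toRight.1 (by rw [hb]; simp)
    have hnbA : Sum.inr (!b) ∉ A := by
      intro h
      have : (!b) ∈ A.toRight := mem_toRight.2 h
      rw [hb, mem_singleton] at this
      cases b <;> simp at this
    by_cases hw : #A.toLeft ≤ 2
    · omega
    have hEHW := hEH A.toLeft (by omega) (by omega)
    by_cases hD : 2 * #A.toLeft - 2 ≤ #(dsum A.toLeft)
    · omega
    by_cases hsub : ∀ x ∈ A.toLeft, -x ∈ dsum A.toLeft
    · by_cases hz : 0 ∈ A.toLeft
      · have hmem : (!b) ∈ (nbhd (sys color) A).toRight := by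
          rw [mem_toRight]
          have e : op color (.inl 0) (.inr b) = .inr (!b) := by simp [op]
          have := mem_nbhd_of (f := op color) (mem_toLeft.1 hz) hbA (by simp) (by rw [e]; exact hnbA)
          rw [e] at this
          exact this
        have := card_pos.2 ⟨_, hmem⟩
        omega
      · by_cases hcol : ∀ x ∈ A.toLeft, -2 * x ∈ A.toLeft → color x = b
        · obtain ⟨v, hvW, hg, hgD⟩ := hREM b A.toLeft (by omega) (by omega) (by omega) hz hsub hcol
          have hv0 : v ≠ 0 := by rintro rfl; exact hz hvW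
          have hmem := g_mem_nbhd hp color hc A (mem_toLeft.1 hvW) hbA hv0
            (fun h => hg (mem_toLeft.2 h))
          have hnot : g color b v ∉ (dsum A.toLeft).image (fun t => -t) \ A.toLeft := by
            intro h
            rw [mem_sdiff, mem_image] at h
            obtain ⟨⟨t, ht, e⟩, _⟩ := h
            apply hgD
            rw [← e]; simpa using ht
          have hle := card_le_card (insert_subset hmem (neg_dsum_sub color A))
          rw [card_insert_of_notMem hnot] at hle
          omega
        · push Not at hcol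
          obtain ⟨x, hx, hx2, hcx⟩ := hcol
          have hx0 : x ≠ 0 := by rintro rfl; exact hz hx
          have hmem : (!b) ∈ (nbhd (sys color) A).toRight := by
            rw [mem_toRight]
            have hcx' : color x = !b := by revert hcx; cases color x <;> cases b <;> simp
            have e : op color (.inl x) (.inl (-2 * x)) = .inr (!b) := by
              rw [op_r1 hp color hx0, hcx']
            have hne : (Sum.inl x : ZMod p ⊕ Bool) ≠ Sum.inl (-2 * x) := by
              intro h
              exact ne_neg_two hp hx0 (Sum.inl_injective h)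
            have := mem_nbhd_of (f := op color) (mem_toLeft.1 hx) (mem_toLeft.1 hx2) hne
              (by rw [e]; exact hnbA)
            rw [e] at this
            exact this
          have := card_pos.2 ⟨_, hmem⟩
          omega
    · push Not at hsub
      obtain ⟨x, hx, hxD⟩ := hsub
      have h3 := card_inter_ge (A.toLeft.erase x) ((dsum A.toLeft).image (fun t => -t))
      have h4 : (dsum A.toLeft).image (fun t => -t) \ A.toLeft.erase x ⊆
          (dsum A.toLeft).image (fun t => -t) \ A.toLeft := by
        intro y hy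
        rw [mem_sdiff] at hy ⊢
        refine ⟨hy.1, fun hyW => ?_⟩
        have hyx : y = x := by
          by_contra hne
          exact hy.2 (mem_erase.2 ⟨hne, hyW⟩)
        subst hyx
        obtain ⟨t, ht, e⟩ := mem_image.1 hy.1
        apply hxD
        rw [← e]; simpa using ht
      have h5 := card_le_card h4
      have h6 := card_erase_of_mem hx
      omega
  · have hall : ∀ b : Bool, Sum.inr b ∈ A := by
      have hu : A.toRight = univ := by
        apply (card_eq_iff_eq_univ _).1
        simpa using h2
      intro b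
      exact mem_toRight.1 (by rw [hu]; simp)
    by_cases hw : #A.toLeft = 0
    · omega
    have hne : A.toLeft.Nonempty := card_pos.1 (by omega)
    have hcd := ZMod.cauchy_davenport hprime hne hne
    have h3 := card_inter_ge A.toLeft ((A.toLeft + A.toLeft).image (fun t => -t))
    have h4 := card_neg_image (A.toLeft + A.toLeft)
    have h5 := card_le_card (neg_sum_sub hp color hc A hall)
    have h6 : min p (#A.toLeft + #A.toLeft - 1) = #A.toLeft + #A.toLeft - 1 := by
      apply min_eq_right; omega
    rw [h6] at hcd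
    omega

end construction

/-! ### Transport to `Fin n` -/

section transport

variable {V V' : Type*} [Fintype V] [DecidableEq V] [Fintype V'] [DecidableEq V'] (e : V ≃ V')

/-- The image of a triple system under a bijection of the points. -/
def mapS (S : Finset (Finset V)) : Finset (Finset V') := S.image (fun t => t.map e.toEmbedding)

lemma mem_mapS {S : Finset (Finset V)} {t : Finset V'} :
    t ∈ mapS e S ↔ t.map e.symm.toEmbedding ∈ S := by
  rw [mapS, mem_image]
  constructor
  · rintro ⟨u, hu, rfl⟩
    rw [map_map]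
    simpa using hu
  · intro h
    refine ⟨_, h, ?_⟩
    rw [map_map]
    simp

lemma isSTS_mapS {S : Finset (Finset V)} (h : IsSTS S) : IsSTS (mapS e S) := by
  refine ⟨?_, ?_⟩
  · intro t ht
    have := h.1 _ ((mem_mapS e).1 ht)
    rwa [card_map] at this
  · intro x y hxy
    obtain ⟨t, ⟨ht, hx, hy⟩, huniq⟩ := h.2 (e.symm x) (e.symm y) (by simpa using hxy)
    refine ⟨t.map e.toEmbedding, ⟨?_, ?_, ?_⟩, ?_⟩
    · exact mem_image.2 ⟨t, ht, rfl⟩
    · rw [mem_map]; exact ⟨_, hx, by simp⟩
    · rw [mem_map]; exact ⟨_, hy, by simp⟩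
    · rintro u ⟨hu, hxu, hyu⟩
      have := huniq (u.map e.symm.toEmbedding) ⟨(mem_mapS e).1 hu,
        mem_map.2 ⟨x, hxu, by simp⟩, mem_map.2 ⟨y, hyu, by simp⟩⟩
      rw [← this, map_map]
      simp

lemma propE_mapS {S : Finset (Finset V)} (h : PropE S) : PropE (mapS e S) := by
  intro A hA
  have hc := h (A.map e.symm.toEmbedding) (by rw [card_map, Fintype.card_congr e]; exact hA)
  rw [card_map] at hc
  refine hc.trans (Nat.add_le_add_right ?_ 3)
  rw [← card_map e.toEmbedding]
  apply card_le_card
  intro z hz
  rw [mem_map] at hz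
  obtain ⟨w, hw, rfl⟩ := hz
  simp only [nbhd, mem_filter, mem_univ, true_and, mem_map] at hw ⊢
  obtain ⟨hwA, x, ⟨x', hx', rfl⟩, y, ⟨y', hy', rfl⟩, hxy, hS⟩ := hw
  refine ⟨fun h => hwA ⟨_, h, by simp⟩, x', hx', y', hy', fun h => hxy (by rw [h]), ?_⟩
  rw [mem_mapS]
  simpa [map_insert] using hS

end transport

/-- The construction on `Fin (p + 2)`, from a colouring, the restricted sumset bound and the
statement about the remaining sets. -/
theorem exists_sts {p : ℕ} [Fact p.Prime] (hp : 3 < p) (color : ZMod p → Bool)
    (hc : ∀ x : ZMod p, x ≠ 0 → color (-2 * x) = !color x)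
    (hEH : ∀ W : Finset (ZMod p), 2 ≤ #W → 2 * #W - 3 ≤ p → 2 * #W - 3 ≤ #(dsum W))
    (hREM : ∀ (b : Bool) (W : Finset (ZMod p)), 3 ≤ #W → 2 * #W < p → #(dsum W) ≤ 2 * #W - 3 →
      0 ∉ W → (∀ x ∈ W, -x ∈ dsum W) → (∀ x ∈ W, -2 * x ∈ W → color x = b) →
      ∃ v ∈ W, g color b v ∉ W ∧ -(g color b v) ∉ dsum W) :
    ∃ S : Finset (Finset (Fin (p + 2))), IsSTS S ∧ PropE S := by
  have e : ZMod p ⊕ Bool ≃ Fin (p + 2) := Fintype.equivFinOfCardEq (by simp [ZMod.card])
  exact ⟨mapS e (sys color), isSTS_mapS e (isSTS_sys hp color hc),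
    propE_mapS e (propE_sys hp color hc hEH hREM)⟩

end STS7
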