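import Pool.Agent.Lib.MP_7eb8d7_co.Kar2

/-! Moments of a finite set: scaling, translation, the nodal polynomial. -/

namespace StsKar

open Finset Polynomial

section gen

variable {F : Type*} [Field F] [DecidableEq F]

theorem Hs_image_inj (A : Finset F) (f : F → F) (hf : Function.Injective f) (n : ℕ) :
    Hs (A.image f) n = ∑ a ∈ A, (f a) ^ n / ∏ c ∈ A.erase a, (f a - f c) := by
  unfold Hs
  rw [sum_image (fun x _ y _ h => hf h)]
  apply sum_congr rfl
  intro a _
  rw [← Finset.image_erase hf, prod_image (fun x _ y _ h => hf h)]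

theorem Hs_mul (A : Finset F) (d : F) (hd : d ≠ 0) (n : ℕ) :
    Hs (A.image (fun a => d * a)) n * d ^ (#A - 1) = d ^ n * Hs A n := by
  rw [Hs_image_inj A _ (mul_right_injective₀ hd)]
  unfold Hs
  rw [sum_mul, mul_sum]
  apply sum_congr rfl
  intro a ha
  have h1 : ∏ c ∈ A.erase a, (d * a - d * c) = d ^ (#A - 1) * ∏ c ∈ A.erase a, (a - c) := by
    rw [← Finset.card_erase_of_mem ha, ← Finset.prod_const, ← Finset.prod_mul_distrib]
    apply prod_congr rfl
    intro c _
    ring
  have h2 : d ^ (#A - 1) ≠ 0 := pow_ne_zero _ hd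
  have h3 : ∏ c ∈ A.erase a, (a - c) ≠ 0 := by
    rw [Finset.prod_ne_zero_iff]
    intro c hc
    exact sub_ne_zero.2 (Finset.ne_of_mem_erase hc).symm
  rw [h1, mul_pow]
  field_simp

theorem Hs_mul' (A : Finset F) (k : ℕ) (hk : #A = k) (h1 : 1 ≤ k) (d : F) (hd : d ≠ 0) (r : ℕ) :
    Hs (A.image (fun a => d * a)) (k - 1 + r) = d ^ r * Hs A (k - 1 + r) := by
  have h := Hs_mul A d hd (k - 1 + r)
  rw [hk, pow_add] at h
  have h2 : d ^ (k - 1) ≠ 0 := pow_ne_zero _ hd
  apply mul_right_cancel₀ h2
  rw [h]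
  ring

theorem nodal_sum (A : Finset F) (k : ℕ) (hk : #A = k) (j : ℕ) :
    ∑ i ∈ range (k + 1), (Lagrange.nodal A (fun a : F => a)).coeff i * Hs A (i + j) = 0 := by
  have e : ∀ i ∈ range (k + 1), (Lagrange.nodal A (fun a : F => a)).coeff i * Hs A (i + j) =
      ∑ a ∈ A, (Lagrange.nodal A (fun a : F => a)).coeff i * a ^ i *
        (a ^ j / ∏ b ∈ A.erase a, (a - b)) := by
    intro i _
    unfold Hs
    rw [mul_sum]
    apply sum_congr rfl
    intro a _
    rw [pow_add]
    ring
  rw [sum_congr rfl e, sum_comm]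
  apply sum_eq_zero
  intro a ha
  rw [← sum_mul]
  have h1 : (Lagrange.nodal A (fun a : F => a)).natDegree < k + 1 := by
    rw [Lagrange.natDegree_nodal]; omega
  rw [← eval_eq_sum_range' h1 a]
  have : eval a (Lagrange.nodal A (fun a : F => a)) = 0 :=
    Lagrange.eval_nodal_at_node (v := fun a : F => a) ha
  rw [this, zero_mul]

theorem coeff_unique (k : ℕ) (hk : 1 ≤ k) (P Q H H' : ℕ → F) (hP : P k = 1) (hQ : Q k = 1)
    (h0 : ∀ n, n < k - 1 → H n = 0) (h1 : H (k - 1) = 1)
    (h0' : ∀ n, n < k - 1 → H' n = 0) (h1' : H' (k - 1) = 1)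
    (hE : ∀ r, r ≤ k → H (k - 1 + r) = H' (k - 1 + r))
    (sP : ∀ j, j ≤ k - 1 → ∑ i ∈ range (k + 1), P i * H (i + j) = 0)
    (sQ : ∀ j, j ≤ k - 1 → ∑ i ∈ range (k + 1), Q i * H' (i + j) = 0) :
    ∀ t, t ≤ k → P (k - t) = Q (k - t) := by
  intro t
  induction t using Nat.strong_induction_on with
  | _ t ih =>
    intro ht
    rcases Nat.eq_zero_or_pos t with h | h
    · subst h
      rw [Nat.sub_zero, hP, hQ]
    · have a1 := sP (t - 1) (by omega)
      have a2 := sQ (t - 1) (by omega)
      have a3 : ∑ i ∈ range (k + 1), (P i * H (i + (t - 1)) - Q i * H' (i + (t - 1))) = 0 := by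
        rw [sum_sub_distrib, a1, a2, sub_zero]
      rw [sum_eq_single (k - t)] at a3
      · have e : k - t + (t - 1) = k - 1 := by omega
        rw [e, h1, h1', mul_one, mul_one] at a3
        exact sub_eq_zero.1 a3
      · intro i hi hne
        rw [mem_range] at hi
        by_cases hlt : i < k - t
        · rw [h0 _ (by omega), h0' _ (by omega)]
          ring
        · have b1 := ih (k - i) (by omega) (by omega)
          have b2 : k - (k - i) = i := by omega
          rw [b2] at b1
          have b3 := hE (i + (t - 1) - (k - 1)) (by omega)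
          have b4 : k - 1 + (i + (t - 1) - (k - 1)) = i + (t - 1) := by omega
          rw [b4] at b3
          rw [b1, b3, sub_self]
      · intro hn
        exact absurd (mem_range.2 (by omega)) hn

theorem nodal_coeff_card (A : Finset F) (k : ℕ) (hk : #A = k) :
    (Lagrange.nodal A (fun a : F => a)).coeff k = 1 := by
  have h1 := Lagrange.nodal_monic (s := A) (v := fun a : F => a)
  have h2 : (Lagrange.nodal A (fun a : F => a)).natDegree = k := by
    rw [Lagrange.natDegree_nodal, hk]
  rw [← h2]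
  exact h1

theorem mem_iff_nodal (A : Finset F) (x : F) :
    x ∈ A ↔ eval x (Lagrange.nodal A (fun a : F => a)) = 0 := by
  rw [Lagrange.eval_nodal, Finset.prod_eq_zero_iff]
  constructor
  · intro h
    exact ⟨x, h, sub_self x⟩
  · rintro ⟨a, ha, h⟩
    rw [sub_eq_zero] at h
    rw [h]
    exact ha

theorem eq_of_Hs (A B : Finset F) (k : ℕ) (h1 : 1 ≤ k) (hA : #A = k) (hB : #B = k)
    (hE : ∀ r, r ≤ k → Hs A (k - 1 + r) = Hs B (k - 1 + r)) : A = B := by
  have hc := coeff_unique k h1 (fun i => (Lagrange.nodal A (fun a : F => a)).coeff i)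
    (fun i => (Lagrange.nodal B (fun a : F => a)).coeff i) (Hs A) (Hs B)
    (nodal_coeff_card A k hA) (nodal_coeff_card B k hB)
    (fun n hn => Hs_lt (by omega)) (Hs_eq (by omega))
    (fun n hn => Hs_lt (by omega)) (Hs_eq (by omega)) hE
    (fun j _ => nodal_sum A k hA j) (fun j _ => nodal_sum B k hB j)
  have hP : Lagrange.nodal A (fun a : F => a) = Lagrange.nodal B (fun a : F => a) := by
    ext i
    by_cases hi : i ≤ k
    · have := hc (k - i) (by omega)
      have e : k - (k - i) = i := by omega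
      simp only [e] at this
      exact this
    · rw [coeff_eq_zero_of_natDegree_lt, coeff_eq_zero_of_natDegree_lt]
      · rw [Lagrange.natDegree_nodal]; omega
      · rw [Lagrange.natDegree_nodal]; omega
  ext x
  rw [mem_iff_nodal, mem_iff_nodal, hP]

theorem zero_of_Hs (A : Finset F) (k : ℕ) (h1 : 1 ≤ k) (hA : #A = k)
    (hE : ∀ r, 1 ≤ r → r ≤ k → Hs A (k - 1 + r) = 0) : ∀ x ∈ A, x = 0 := by
  have hc := coeff_unique k h1 (fun i => (Lagrange.nodal A (fun a : F => a)).coeff i)
    (fun i => if i = k then (1 : F) else 0) (Hs A) (fun n => if n = k - 1 then (1 : F) else 0)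
    (nodal_coeff_card A k hA) (by simp)
    (fun n hn => Hs_lt (by omega)) (Hs_eq (by omega))
    (fun n hn => if_neg (by omega)) (by simp)
    (by
      intro r hr
      rcases Nat.eq_zero_or_pos r with h | h
      · subst h
        rw [Nat.add_zero, Hs_eq (by omega), if_pos rfl]
      · rw [hE r h hr, if_neg (by omega)])
    (fun j _ => nodal_sum A k hA j)
    (by
      intro j hj
      apply sum_eq_zero
      intro i hi
      rw [mem_range] at hi
      by_cases hik : i = k
      · rw [if_neg (by omega : ¬ (i + j = k - 1)), mul_zero]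
      · rw [if_neg hik, zero_mul])
  intro x hx
  have h2 := (mem_iff_nodal A x).1 hx
  have h3 : (Lagrange.nodal A (fun a : F => a)).natDegree < k + 1 := by
    rw [Lagrange.natDegree_nodal]; omega
  rw [eval_eq_sum_range' h3 x, sum_eq_single k] at h2
  · rw [nodal_coeff_card A k hA, one_mul] at h2
    exact pow_eq_zero_iff (by omega) |>.1 h2
  · intro i hi hne
    rw [mem_range] at hi
    have := hc (k - i) (by omega)
    have e : k - (k - i) = i := by omega
    simp only [e] at this
    rw [this, if_neg hne, zero_mul]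
  · intro hn
    exact absurd (mem_range.2 (by omega)) hn

theorem Hs_card (A : Finset F) (k : ℕ) (h1 : 1 ≤ k) (hA : #A = k) : Hs A k = ∑ a ∈ A, a := by
  have hs := nodal_sum A k hA 0
  rw [sum_range_succ, nodal_coeff_card A k hA, one_mul, Nat.add_zero] at hs
  rw [sum_eq_single (k - 1)] at hs
  · rw [Nat.add_zero, Hs_eq (by omega), mul_one] at hs
    have h2 : (Lagrange.nodal A (fun a : F => a)).coeff (k - 1) = - ∑ a ∈ A, a := by
      have h3 : (Lagrange.nodal A (fun a : F => a)).natDegree = k := by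
        rw [Lagrange.natDegree_nodal, hA]
      have h4 := Polynomial.prod_X_sub_C_nextCoeff (s := A) (fun a : F => a)
      rw [← Lagrange.nodal, nextCoeff_of_natDegree_pos (by omega), h3] at h4
      exact h4
    rw [h2] at hs
    linear_combination hs
  · intro i hi hne
    rw [mem_range] at hi
    rw [Hs_lt (by omega), mul_zero]
  · intro hn
    exact absurd (mem_range.2 (by omega)) hn

theorem rs_add (A : Finset F) (c : F) :
    rs (A.image (fun a => a + c)) = (rs A).image (fun z => z + 2 * c) := by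
  ext z
  simp only [mem_rs, mem_image]
  constructor
  · rintro ⟨x, ⟨a, ha, rfl⟩, y, ⟨b, hb, rfl⟩, hxy, rfl⟩
    exact ⟨a + b, ⟨a, ha, b, hb, fun h => hxy (by rw [h]), rfl⟩, by ring⟩
  · rintro ⟨w, ⟨a, ha, b, hb, hab, rfl⟩, rfl⟩
    exact ⟨a + c, ⟨a, ha, rfl⟩, b + c, ⟨b, hb, rfl⟩, fun h => hab (add_right_cancel h), by ring⟩

theorem rs_mul (A : Finset F) (d : F) (hd : d ≠ 0) :
    rs (A.image (fun a => d * a)) = (rs A).image (fun z => d * z) := by
  ext z
  simp only [mem_rs, mem_image]
  constructor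
  · rintro ⟨x, ⟨a, ha, rfl⟩, y, ⟨b, hb, rfl⟩, hxy, rfl⟩
    exact ⟨a + b, ⟨a, ha, b, hb, fun h => hxy (by rw [h]), rfl⟩, by ring⟩
  · rintro ⟨w, ⟨a, ha, b, hb, hab, rfl⟩, rfl⟩
    exact ⟨d * a, ⟨a, ha, rfl⟩, d * b, ⟨b, hb, rfl⟩,
      fun h => hab (mul_left_cancel₀ hd h), by ring⟩

theorem card_rs_add (A : Finset F) (c : F) : #(rs (A.image (fun a => a + c))) = #(rs A) := by
  rw [rs_add, card_image_of_injective _ (add_left_injective (2 * c))]

theorem card_rs_mul (A : Finset F) (d : F) (hd : d ≠ 0) :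
    #(rs (A.image (fun a => d * a))) = #(rs A) := by
  rw [rs_mul A d hd, card_image_of_injective _ (mul_right_injective₀ hd)]

end gen

end StsKar
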